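import Mathlib
import Pool.Agent.R177.CellData

set_option autoImplicit false

namespace Pool.Agent.R177.Cell24

open Pool.Agent.R177.Unf Pool.Agent.R177.Phi Pool.Agent.R177.CellData RealInnerProductSpace Set

/-- The vertices `±e_i` and `(±1/2, ±1/2, ±1/2, ±1/2)` of the 24-cell. -/
def V24 : Set E := {v | (∃ i, |v i| = 1 ∧ ∀ j, j ≠ i → v j = 0) ∨ (∀ i, |v i| = 1 / 2)}

/-- The 24-cell. -/
def cell24 : Set E := convexHull ℝ V24

theorem convex_Pol {n : ℕ} (N : Fin (n + 1) → E) (h : ℝ) : Convex ℝ (Pol N h) := by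
  have : Pol N h = ⋂ i, {x : E | (innerSL ℝ (N i)) x ≤ h} := by
    ext x
    simp only [mem_iInter, mem_ofPred_eq, innerSL_apply_apply]
    rfl
  rw [this]
  exact convex_iInter fun i => convex_halfSpace_le (innerSL ℝ (N i)).isLinear h

def sg (s : Bool) : ℤ × ℤ := if s then (1, 0) else (-1, 0)

/-- The integral vector `s e_a + t e_b`. -/
def root (a b : Fin 4) (s t : Bool) : Vz := fun l => if l = a then sg s else if l = b then sg t
  else (0, 0)

theorem data24_a : ∀ k : Fin 24, ∃ a b : Fin 4, a ≠ b ∧ ∃ s t : Bool, ∀ l,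
    vecB 64 W24 k l = root a b s t l := by decide +kernel

theorem data24_b : ∀ a b : Fin 4, a ≠ b → ∀ s t : Bool, ∃ k : Fin 24, ∀ l,
    vecB 64 W24 k l = root a b s t l := by decide +kernel

theorem inner_root {a b : Fin 4} (hab : a ≠ b) (s t : Bool) (x : E) :
    ⟪toE (root a b s t), x⟫ = val (sg s) * x a + val (sg t) * x b := by
  rw [inner_eq]
  simp only [toE_apply, root]
  have h0 : val (0, 0) = 0 := by simp [val]
  fin_cases a <;> fin_cases b <;> simp [h0] at hab ⊢ <;> ring

noncomputable def N24 (i : Fin (23 + 1)) : E := toE (vecB 64 W24 i)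

theorem mem_Pol24 (x : E) : x ∈ Pol N24 (val (1, 0)) ↔ ∀ a b : Fin 4, a ≠ b → |x a| + |x b| ≤ 1 := by
  have h1 : val (1, 0) = 1 := by simp [val]
  have hs1 : val (sg true) = 1 := by simp [val, sg]
  have hs2 : val (sg false) = -1 := by simp [val, sg]
  constructor
  · intro hx a b hab
    have key : ∀ s t : Bool, val (sg s) * x a + val (sg t) * x b ≤ 1 := by
      intro s t
      obtain ⟨k, hk⟩ := data24_b a b hab s t
      have h2 := hx k
      have h3 : N24 k = toE (root a b s t) := by
        rw [N24]; congr 1; exact funext hk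
      rw [h3, inner_root hab, h1] at h2
      exact h2
    have k1 := key true true
    have k2 := key true false
    have k3 := key false true
    have k4 := key false false
    rw [hs1] at k1 k2 k3
    rw [hs2] at k2 k3 k4
    rcases abs_cases (x a) with ⟨e1, _⟩ | ⟨e1, _⟩ <;> rcases abs_cases (x b) with ⟨e2, _⟩ | ⟨e2, _⟩ <;>
      rw [e1, e2] <;> linarith
  · intro hx k
    obtain ⟨a, b, hab, s, t, hk⟩ := data24_a k
    have h3 : N24 k = toE (root a b s t) := by
      rw [N24]; congr 1; exact funext hk
    rw [h3, inner_root hab, h1]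
    have h4 := hx a b hab
    have h5 := neg_abs_le (x a)
    have h6 := le_abs_self (x a)
    have h7 := neg_abs_le (x b)
    have h8 := le_abs_self (x b)
    cases s <;> cases t <;> simp only [hs1, hs2] <;> linarith

/-- The cube `[-1/2, 1/2]^4` is contained in the 24-cell. -/
theorem cube_subset {y : E} (hy : ∀ i, |y i| ≤ 1 / 2) : y ∈ cell24 := by
  have h1 : (fun i => y i) ∈ Set.univ.pi (fun _ : Fin 4 => convexHull ℝ ({-(1 / 2), 1 / 2} : Set ℝ)) := by
    intro i _
    rw [convexHull_pair, segment_eq_Icc (by norm_num)]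
    exact abs_le.1 (hy i)
  rw [← convexHull_pi] at h1
  have h2 : (WithLp.linearEquiv 2 ℝ (Fin 4 → ℝ)).symm.toLinearMap '' (convexHull ℝ
      (Set.univ.pi (fun _ : Fin 4 => ({-(1 / 2), 1 / 2} : Set ℝ)))) ⊆ cell24 := by
    rw [LinearMap.image_convexHull]
    apply convexHull_mono
    rintro _ ⟨z, hz, rfl⟩
    right
    intro i
    have h3 := hz i (mem_univ _)
    change |z i| = 1 / 2
    rcases h3 with h3 | h3
    · rw [h3, abs_neg, abs_of_pos (by norm_num)]
    · rw [mem_singleton_iff] at h3
      rw [h3, abs_of_pos (by norm_num)]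
  exact h2 ⟨_, h1, rfl⟩

theorem cell24_eq : cell24 = Pol N24 (val (1, 0)) := by
  apply Subset.antisymm
  · apply convexHull_min _ (convex_Pol _ _)
    rintro v (⟨i, hi, hv⟩ | hv)
    · rw [mem_Pol24]
      intro a b hab
      by_cases ha : a = i
      · have hb : b ≠ i := fun h => hab (ha.trans h.symm)
        rw [ha, hi, hv b hb, abs_zero, add_zero]
      · rw [hv a ha, abs_zero, zero_add]
        by_cases hb : b = i
        · rw [hb, hi]
        · rw [hv b hb, abs_zero]; norm_num
    · rw [mem_Pol24]
      intro a b _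
      rw [hv a, hv b]; norm_num
  · intro x hx
    rw [mem_Pol24] at hx
    obtain ⟨i, hi⟩ := Finite.exists_max (fun i : Fin 4 => |x i|)
    set m := |x i| with hm
    have hm0 : 0 ≤ m := abs_nonneg _
    obtain ⟨j, hj⟩ := exists_ne i
    have hm1 : m ≤ 1 := by
      have := hx i j hj.symm
      have h2 := abs_nonneg (x j)
      linarith
    set t := min m (1 - m) with ht
    have ht0 : 0 ≤ t := le_min hm0 (by linarith)
    have ht1 : t ≤ m := min_le_left _ _
    have ht2 : t ≤ 1 - m := min_le_right _ _
    have hxt : ∀ j, j ≠ i → |x j| ≤ t := by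
      intro j hj
      refine le_min (hi j) ?_
      have := hx i j hj.symm
      linarith
    have hcv : Convex ℝ cell24 := convex_convexHull ℝ _
    have h0 : (0 : E) ∈ cell24 := cube_subset (by intro i; simp)
    -- the unit vector
    obtain ⟨ε, hε1, hε2⟩ : ∃ ε : ℝ, |ε| = 1 ∧ x i = ε * m := by
      rcases le_total 0 (x i) with h | h
      · exact ⟨1, by norm_num, by rw [hm, abs_of_nonneg h, one_mul]⟩
      · exact ⟨-1, by norm_num, by rw [hm, abs_of_nonpos h]; ring⟩
    have he : (EuclideanSpace.single i ε : E) ∈ cell24 := by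
      apply subset_convexHull
      left
      refine ⟨i, by simpa using hε1, fun j hj => by simp [hj]⟩
    -- the point of the cube
    obtain ⟨y, hy1, hy2⟩ : ∃ y : E, y ∈ cell24 ∧
        x = (m - t) • EuclideanSpace.single i ε + (2 * t) • y := by
      rcases ht0.lt_or_eq with htp | htz
      · refine ⟨(2 * t)⁻¹ • (x - (m - t) • EuclideanSpace.single i ε), cube_subset ?_, ?_⟩
        · intro l
          simp only [PiLp.smul_apply, PiLp.sub_apply, smul_eq_mul]
          rw [abs_mul, abs_of_pos (by positivity : 0 < (2 * t)⁻¹)]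
          rw [inv_mul_le_iff₀ (by positivity)]
          by_cases hl : l = i
          · rw [hl, hε2]
            simp only [PiLp.single_apply, if_true]
            have : ε * m - (m - t) * ε = ε * t := by ring
            rw [this, abs_mul, hε1, abs_of_pos htp]
            linarith
          · simp only [PiLp.single_apply, hl, if_false, mul_zero, sub_zero]
            have := hxt l hl
            linarith
        · rw [smul_smul, mul_inv_cancel₀ (by positivity), one_smul]
          abel
      · refine ⟨0, h0, ?_⟩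
        rw [← htz, mul_zero, zero_smul, add_zero, sub_zero]
        ext l
        by_cases hl : l = i
        · rw [hl, hε2]
          simp [mul_comm]
        · have h1 := hxt l hl
          rw [← htz] at h1
          have h2 : x l = 0 := abs_eq_zero.1 (le_antisymm h1 (abs_nonneg _))
          rw [h2]
          simp [hl]
    rw [hy2]
    have h3 := hcv.sum_mem (t := Finset.univ) (w := ![m - t, 2 * t, 1 - m - t])
      (z := ![EuclideanSpace.single i ε, y, 0]) (by
        intro l _
        fin_cases l
        · simp; linarith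
        · simp; linarith
        · simp; linarith) (by
        simp [Fin.sum_univ_three]; ring) (by
        intro l _
        fin_cases l
        · exact he
        · exact hy1
        · exact h0)
    simpa [Fin.sum_univ_three] using h3

theorem reg24 : Reg N24 (val (1, 0)) (val (2, 0)) (val (1, 0)) := by
  have h1 : val (1, 0) = 1 := by simp [val]
  have h2 : val (2, 0) = 2 := by simp [val]
  constructor
  · rw [h1]; norm_num
  · intro i
    have key : ∀ i : Fin 24, dotz (vecB 64 W24 i) (vecB 64 W24 i) = (2, 0) := by decide +kernel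
    rw [N24, inner_toE, key]
  · intro i j hij
    have key : ∀ i j : Fin 24, i ≠ j → (dotz (vecB 64 W24 i) (vecB 64 W24 j)).1 ≤ 1 ∧
        (dotz (vecB 64 W24 i) (vecB 64 W24 j)).2 = 0 := by decide +kernel
    rw [N24, N24, inner_toE, h1]
    obtain ⟨h3, h4⟩ := key i j hij
    rw [val, h4, Int.cast_zero, zero_mul, add_zero]
    exact_mod_cast h3
  · rw [h1, h2]; norm_num
  · rw [h1, h2]; norm_num

theorem not_allNet_cell24 : ¬ AllNet cell24 := by
  rw [cell24_eq]
  refine not_allNet_of_data (n := 23) (fun i => vecB 64 W24 i) (1, 0) (2, 0) (1, 0) reg24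
    (fun i => P24 / 32 ^ i % 32) ?_ ?_ 7 (by norm_num) (by norm_num) ?_
    (fun t => vecB 16777216 X24 t) (972, 0) (by decide) ?_ ?_ ?_ ?_ ?_
  · have key : ∀ i : Fin 24, (i : ℕ) ≠ 0 → P24 / 32 ^ (i : ℕ) % 32 < i := by decide +kernel
    exact fun i hi => key ⟨i, hi⟩
  · have key : ∀ i : Fin 24, (i : ℕ) ≠ 0 →
        dotz (vecB 64 W24 i) (vecB 64 W24 (P24 / 32 ^ (i : ℕ) % 32)) = (1, 0) := by decide +kernel
    exact fun i hi => key ⟨i, hi⟩
  · have key : ∀ i : Fin 7, P24 / 32 ^ ((i : ℕ) + 1) % 32 = i := by decide +kernel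
    exact fun i hi => key ⟨i, hi⟩
  · have key : ∀ t : Fin 7, ∀ s : Fin 4,
      zmul (zadd (2, 0) (1, 0)) (zsub (vecB 16777216 X24 (t + 1) s) (vecB 16777216 X24 t s)) =
        zmul (zsub (dotz (vadd (vecB 64 W24 (t + 1)) (vecB 64 W24 t))
          (vecB 16777216 X24 (t + 1))) (zmul (zadd (1, 0) (1, 0)) (972, 0)))
          (vadd (vecB 64 W24 (t + 1)) (vecB 64 W24 t) s) := by decide +kernel
    exact fun i hi => key ⟨i, hi⟩
  · decide +kernel
  · have key : ∀ j : Fin 24, (j : ℕ) ≠ 0 →
      pos (zsub (zmul (1, 0) (972, 0)) (dotz (vecB 64 W24 j) (vecB 16777216 X24 0))) = true := by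
      decide +kernel
    exact fun i hi => key ⟨i, hi⟩
  · decide +kernel
  · have key : ∀ j : Fin 24, (j : ℕ) ≠ 7 →
      pos (zsub (zmul (1, 0) (972, 0)) (dotz (vecB 64 W24 j) (vecB 16777216 X24 7))) = true := by
      decide +kernel
    exact fun i hi => key ⟨i, hi⟩

end Pool.Agent.R177.Cell24
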