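import Mathlib
import Pool.Agent.R177.Cell24

set_option autoImplicit false

namespace Pool.Agent.R177.Cell120

open Pool.Agent.R177.Unf Pool.Agent.R177.Phi Pool.Agent.R177.CellData RealInnerProductSpace Set Real

/-- The 120 vertices of the 600-cell of circumradius `1`: the vectors `±e_i`,
`(±1/2, ±1/2, ±1/2, ±1/2)` and the even permutations of `(±φ/2, ±1/2, ±1/(2φ), 0)`. -/
def V600 : Set E := {v | (∃ i, |v i| = 1 ∧ ∀ j, j ≠ i → v j = 0) ∨ (∀ i, |v i| = 1 / 2) ∨
  ∃ σ : Equiv.Perm (Fin 4), Equiv.Perm.sign σ = 1 ∧ |v (σ 0)| = goldenRatio / 2 ∧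
    |v (σ 1)| = 1 / 2 ∧ |v (σ 2)| = 1 / (2 * goldenRatio) ∧ v (σ 3) = 0}

/-- The 600-cell. -/
def cell600 : Set E := convexHull ℝ V600

/-- The 120-cell, as the polar dual of the 600-cell. -/
def cell120 : Set E := {x | ∀ v ∈ V600, ⟪v, x⟫ ≤ 1}

/-- Twice the `k`-th vertex of the 600-cell, as an integral vector. -/
def w (k : ℕ) : Vz := vecB 64 W120 k

theorem data_a : ∀ i : Fin 4, ∀ s : Bool, ∃ k : Fin 120, ∀ l, w k l =
    if l = i then (if s then (2, 0) else (-2, 0)) else (0, 0) := by decide +kernel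

theorem data_b : ∀ s : Fin 4 → Bool, ∃ k : Fin 120, ∀ l, w k l =
    if s l then (1, 0) else (-1, 0) := by decide +kernel

theorem data_c : ∀ σ : Equiv.Perm (Fin 4), Equiv.Perm.sign σ = 1 → ∀ s : Fin 3 → Bool,
    ∃ k : Fin 120, w k (σ 0) = (if s 0 then (0, 1) else (0, -1)) ∧
      w k (σ 1) = (if s 1 then (1, 0) else (-1, 0)) ∧
      w k (σ 2) = (if s 2 then (-1, 1) else (1, -1)) ∧ w k (σ 3) = (0, 0) := by decide +kernel

theorem data_d : ∀ k : Fin 120, (∃ i, (w k i = (2, 0) ∨ w k i = (-2, 0)) ∧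
    ∀ j, j ≠ i → w k j = (0, 0)) ∨ (∀ i, w k i = (1, 0) ∨ w k i = (-1, 0)) ∨
    ∃ σ : Equiv.Perm (Fin 4), Equiv.Perm.sign σ = 1 ∧
      (w k (σ 0) = (0, 1) ∨ w k (σ 0) = (0, -1)) ∧
      (w k (σ 1) = (1, 0) ∨ w k (σ 1) = (-1, 0)) ∧
      (w k (σ 2) = (-1, 1) ∨ w k (σ 2) = (1, -1)) ∧ w k (σ 3) = (0, 0) := by decide +kernel

theorem inv_phi : 1 / (2 * goldenRatio) = (goldenRatio - 1) / 2 := by
  have h1 := goldenRatio_pos
  have h2 := goldenRatio_sq
  rw [div_eq_div_iff (by positivity) (by norm_num)]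
  linear_combination (-2) * h2

theorem phi_gt_one : 1 < goldenRatio := one_lt_goldenRatio

theorem half_apply (k : ℕ) (l : Fin 4) : ((1 / 2 : ℝ) • toE (w k)) l = val (w k l) / 2 := by
  simp only [PiLp.smul_apply, toE_apply, smul_eq_mul]
  ring

theorem eq_or_neg {x a : ℝ} (h : |x| = a) : x = a ∨ x = -a := by
  rcases abs_cases x with ⟨h1, _⟩ | ⟨h1, _⟩
  · left; linarith
  · right; linarith

theorem mem_V600_iff (v : E) : v ∈ V600 ↔ ∃ k : Fin 120, v = (1 / 2 : ℝ) • toE (w k) := by
  have hp := phi_gt_one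
  constructor
  · rintro (⟨i, hi, hv⟩ | hv | ⟨σ, hσ, h0, h1, h2, h3⟩)
    · classical
      obtain ⟨k, hk⟩ := data_a i (decide (v i = 1))
      refine ⟨k, ?_⟩
      ext l
      rw [half_apply, hk l]
      by_cases hl : l = i
      · subst hl
        rcases eq_or_neg hi with h | h
        · simp [h, val]
        · have : ¬ (v l = 1) := by rw [h]; norm_num
          rw [if_pos rfl, decide_eq_false this, h]
          simp [val]
      · rw [if_neg hl, hv l hl]
        simp [val]
    · classical
      obtain ⟨k, hk⟩ := data_b (fun l => decide (v l = 1 / 2))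
      refine ⟨k, ?_⟩
      ext l
      rw [half_apply, hk l]
      rcases eq_or_neg (hv l) with h | h
      · simp [h, val]
      · have : ¬ (v l = 1 / 2) := by rw [h]; norm_num
        simp only [decide_eq_false this, h]
        simp [val]
        norm_num
    · classical
      rw [inv_phi] at h2
      obtain ⟨k, hk0, hk1, hk2, hk3⟩ := data_c σ hσ
        ![decide (v (σ 0) = goldenRatio / 2), decide (v (σ 1) = 1 / 2),
          decide (v (σ 2) = (goldenRatio - 1) / 2)]
      refine ⟨k, ?_⟩
      ext l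
      rw [half_apply]
      obtain ⟨j, rfl⟩ := σ.surjective l
      have hj : j = 0 ∨ j = 1 ∨ j = 2 ∨ j = 3 := by
        fin_cases j <;> simp
      rcases hj with rfl | rfl | rfl | rfl
      · rw [hk0]
        rcases eq_or_neg h0 with h | h
        · simp [h, val]
        · have : ¬ (v (σ 0) = goldenRatio / 2) := by rw [h]; intro h'; linarith
          simp only [Matrix.cons_val_zero, decide_eq_false this]
          rw [h]; simp [val]; ring
      · rw [hk1]
        rcases eq_or_neg h1 with h | h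
        · simp [h, val]
        · have : ¬ (v (σ 1) = 1 / 2) := by rw [h]; intro h'; linarith
          simp only [Matrix.cons_val_one, Matrix.cons_val_zero, decide_eq_false this]
          rw [h]; simp [val]; norm_num
      · rw [hk2]
        rcases eq_or_neg h2 with h | h
        · simp [h, val]; ring
        · have : ¬ (v (σ 2) = (goldenRatio - 1) / 2) := by rw [h]; intro h'; linarith
          simp only [Matrix.cons_val, decide_eq_false this]
          rw [h]; simp [val]; ring
      · rw [hk3, h3]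
        simp [val]
  · rintro ⟨k, rfl⟩
    rcases data_d k with ⟨i, hi, hj⟩ | hk | ⟨σ, hσ, h0, h1, h2, h3⟩
    · left
      refine ⟨i, ?_, fun j hji => ?_⟩
      · rw [half_apply]
        rcases hi with h | h <;> rw [h] <;> simp [val]
      · rw [half_apply, hj j hji]; simp [val]
    · right; left
      intro i
      rw [half_apply]
      rcases hk i with h | h <;> rw [h] <;> norm_num [val, abs_div]
    · right; right
      refine ⟨σ, hσ, ?_, ?_, ?_, ?_⟩
      · rw [half_apply]
        have h4 : 0 < goldenRatio := goldenRatio_pos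
        rcases h0 with h | h <;> rw [h] <;> simp only [val] <;> push_cast
        · rw [zero_add, one_mul, abs_of_pos (by positivity)]
        · rw [zero_add, abs_of_neg (by linarith)]; ring
      · rw [half_apply]
        rcases h1 with h | h <;> rw [h] <;> norm_num [val, abs_div]
      · rw [half_apply, inv_phi]
        rcases h2 with h | h <;> rw [h] <;> simp only [val] <;> push_cast
        · rw [abs_of_pos (by linarith)]; ring
        · rw [abs_of_neg (by linarith)]; ring
      · rw [half_apply, h3]; simp [val]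

/-- Adjacency bits. -/
def adjb (a v : ℕ) : Bool := Nat.testBit M120 (120 * a + v)

def gok (i j : ℕ) : Bool :=
  let g := dotz (w i) (w j)
  (adjb i j && adjb j i && g.1 == 0 && g.2 == 2) ||
  (!(adjb i j) && !(adjb j i) && (pos (zsub (2, 0) g) || (g.1 == 2 && g.2 == 0)))

theorem gram_check : allB 120 (fun i => allB i (fun j => gok i j)) = true := by decide +kernel

theorem self_check : allB 120 (fun i => (dotz (w i) (w i)).1 == 4 && (dotz (w i) (w i)).2 == 0) =
    true := by decide +kernel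

theorem dotz_comm (u v : Vz) : dotz u v = dotz v u := by
  simp only [dotz]
  ext
  · simp only; ring
  · simp only; ring

theorem dotz_self {i : ℕ} (hi : i < 120) : dotz (w i) (w i) = (4, 0) := by
  have := allB_spec self_check i hi
  simp only [Bool.and_eq_true, beq_iff_eq] at this
  exact Prod.ext this.1 this.2

theorem gram_lt {i j : ℕ} (hi : i < 120) (hj : j < i) :
    (adjb i j = true ∧ adjb j i = true ∧ dotz (w i) (w j) = (0, 2)) ∨
      (adjb i j = false ∧ adjb j i = false ∧ val (dotz (w i) (w j)) ≤ 2) := by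
  have h1 := allB_spec (allB_spec gram_check i hi) j hj
  simp only [gok, Bool.or_eq_true, Bool.and_eq_true, beq_iff_eq, Bool.not_eq_true'] at h1
  rcases h1 with ⟨⟨⟨h1, h2⟩, h3⟩, h4⟩ | ⟨⟨h1, h2⟩, h3⟩
  · exact Or.inl ⟨h1, h2, Prod.ext h3 h4⟩
  · refine Or.inr ⟨h1, h2, ?_⟩
    have h20 : val (2, 0) = 2 := by simp [val]
    rcases h3 with h3 | ⟨h3, h4⟩
    · have := val_lt h3
      rw [h20] at this
      exact this.le
    · rw [← h20, val, val, h3, h4]

theorem gram {i j : ℕ} (hi : i < 120) (hj : j < 120) (hij : i ≠ j) :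
    (adjb i j = true ∧ dotz (w i) (w j) = (0, 2)) ∨
      (adjb i j = false ∧ val (dotz (w i) (w j)) ≤ 2) := by
  rcases lt_or_gt_of_ne hij with h | h
  · rcases gram_lt hj h with ⟨h1, h2, h3⟩ | ⟨h1, h2, h3⟩
    · exact Or.inl ⟨h2, by rw [dotz_comm]; exact h3⟩
    · exact Or.inr ⟨h2, by rw [dotz_comm]; exact h3⟩
  · rcases gram_lt hi h with ⟨h1, h2, h3⟩ | ⟨h1, h2, h3⟩
    · exact Or.inl ⟨h1, h3⟩
    · exact Or.inr ⟨h1, h3⟩

noncomputable def N120 (i : Fin (119 + 1)) : E := toE (w i)

theorem cell120_eq : cell120 = Pol N120 (val (2, 0)) := by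
  have h20 : val (2, 0) = 2 := by simp [val]
  ext x
  constructor
  · intro hx k
    have h1 := hx _ ((mem_V600_iff _).2 ⟨k, rfl⟩)
    rw [inner_smul_left] at h1
    simp only [one_div, conj_trivial] at h1
    rw [h20, N120]
    linarith
  · intro hx v hv
    obtain ⟨k, rfl⟩ := (mem_V600_iff v).1 hv
    have h1 := hx k
    rw [h20, N120] at h1
    rw [inner_smul_left]
    simp only [one_div, conj_trivial]
    linarith

theorem reg120 : Reg N120 (val (2, 0)) (val (4, 0)) (val (0, 2)) := by
  have h1 : val (2, 0) = 2 := by simp [val]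
  have h2 : val (4, 0) = 4 := by simp [val]
  have h3 : val (0, 2) = 2 * goldenRatio := by simp [val]
  have hp := phi_gt_one
  have hp2 := goldenRatio_lt_two
  constructor
  · rw [h1]; norm_num
  · intro i
    rw [N120, inner_toE, dotz_self i.2]
  · intro i j hij
    rw [N120, N120, inner_toE]
    rcases gram i.2 j.2 (fun h => hij (Fin.ext h)) with ⟨_, h⟩ | ⟨_, h⟩
    · rw [h]
    · rw [h3]; linarith
  · rw [h2, h3]; linarith
  · rw [h2, h3]; linarith

theorem not_allNet_cell120 : ¬ AllNet cell120 := by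
  rw [cell120_eq]
  refine not_allNet_of_data (n := 119) (fun i => w i) (2, 0) (4, 0) (0, 2) reg120
    (fun i => P120 / 128 ^ i % 128) ?_ ?_ 5 (by norm_num) (by norm_num) ?_
    (fun t => vecB 16777216 X120 t) (150, 0) (by decide) ?_ ?_ ?_ ?_ ?_
  · have key : ∀ i : Fin 120, (i : ℕ) ≠ 0 → P120 / 128 ^ (i : ℕ) % 128 < i := by decide +kernel
    exact fun i hi => key ⟨i, hi⟩
  · have key : ∀ i : Fin 120, (i : ℕ) ≠ 0 →
        dotz (w i) (w (P120 / 128 ^ (i : ℕ) % 128)) = (0, 2) := by decide +kernel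
    exact fun i hi => key ⟨i, hi⟩
  · have key : ∀ i : Fin 5, P120 / 128 ^ ((i : ℕ) + 1) % 128 = i := by decide +kernel
    exact fun i hi => key ⟨i, hi⟩
  · have key : ∀ t : Fin 5, ∀ s : Fin 4,
      zmul (zadd (4, 0) (0, 2)) (zsub (vecB 16777216 X120 (t + 1) s) (vecB 16777216 X120 t s)) =
        zmul (zsub (dotz (vadd (w (t + 1)) (w t))
          (vecB 16777216 X120 (t + 1))) (zmul (zadd (2, 0) (2, 0)) (150, 0)))
          (vadd (w (t + 1)) (w t) s) := by decide +kernel
    exact fun i hi => key ⟨i, hi⟩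
  · decide +kernel
  · have key : ∀ j : Fin 120, (j : ℕ) ≠ 0 →
      pos (zsub (zmul (2, 0) (150, 0)) (dotz (w j) (vecB 16777216 X120 0))) = true := by
      decide +kernel
    exact fun i hi => key ⟨i, hi⟩
  · decide +kernel
  · have key : ∀ j : Fin 120, (j : ℕ) ≠ 5 →
      pos (zsub (zmul (2, 0) (150, 0)) (dotz (w j) (vecB 16777216 X120 5))) = true := by
      decide +kernel
    exact fun i hi => key ⟨i, hi⟩

end Pool.Agent.R177.Cell120
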