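import Mathlib
import Pool.Agent.R177.Cell120

set_option autoImplicit false

namespace Pool.Agent.R177.Cell600

open Pool.Agent.R177.Unf Pool.Agent.R177.Phi Pool.Agent.R177.CellData RealInnerProductSpace Set Real
open Pool.Agent.R177.Cell120

/-- The `i`-th facet (four sorted vertex numbers), as a number below `128^4`. -/
def fk (i : ℕ) : ℕ := FF / 268435456 ^ i % 268435456
def f0 (i : ℕ) : ℕ := fk i % 128
def f1 (i : ℕ) : ℕ := fk i / 128 % 128
def f2 (i : ℕ) : ℕ := fk i / 16384 % 128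
def f3 (i : ℕ) : ℕ := fk i / 2097152 % 128

theorem fk_lt (i : ℕ) : fk i < 268435456 := Nat.mod_lt _ (by norm_num)

/-- Vertices of the `i`-th facet. -/
def fv (i : ℕ) (a : Fin 4) : ℕ := ![f0 i, f1 i, f2 i, f3 i] a

/-- The normal of the `i`-th facet. -/
def nv (i : ℕ) : Vz := vadd (vadd (w (f0 i)) (w (f1 i))) (vadd (w (f2 i)) (w (f3 i)))

def row (a : ℕ) : ℕ := M120 / 2 ^ (120 * a) % 2 ^ 120

def fok (i : ℕ) : Bool :=
  decide (f0 i < f1 i) && decide (f1 i < f2 i) && decide (f2 i < f3 i) && decide (f3 i < 120) &&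
  (adjb (f0 i) (f1 i) && adjb (f0 i) (f2 i) && adjb (f0 i) (f3 i) && adjb (f1 i) (f2 i) &&
    adjb (f1 i) (f3 i) && adjb (f2 i) (f3 i)) &&
  (row (f0 i) &&& row (f1 i) &&& row (f2 i) &&& row (f3 i)) == 0

theorem fok_check : allB 600 fok = true := by decide +kernel

theorem dist_check : allB 600 (fun i => allB i (fun j => !(fk i == fk j))) = true := by
  decide +kernel

def nb (i a : ℕ) : ℕ := NB / 1024 ^ (4 * i + a) % 1024

def inF (i v : ℕ) : Bool := f0 i == v || f1 i == v || f2 i == v || f3 i == v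

def nbok (i : ℕ) : Bool :=
  (decide (nb i 0 < 600) && !inF (nb i 0) (f0 i) && inF (nb i 0) (f1 i) && inF (nb i 0) (f2 i) &&
    inF (nb i 0) (f3 i)) &&
  (decide (nb i 1 < 600) && inF (nb i 1) (f0 i) && !inF (nb i 1) (f1 i) && inF (nb i 1) (f2 i) &&
    inF (nb i 1) (f3 i)) &&
  (decide (nb i 2 < 600) && inF (nb i 2) (f0 i) && inF (nb i 2) (f1 i) && !inF (nb i 2) (f2 i) &&
    inF (nb i 2) (f3 i)) &&
  (decide (nb i 3 < 600) && inF (nb i 3) (f0 i) && inF (nb i 3) (f1 i) && inF (nb i 3) (f2 i) &&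
    !inF (nb i 3) (f3 i))

theorem nbok_check : allB 600 nbok = true := by decide +kernel

def par (i : ℕ) : ℕ := nb i (PS / 4 ^ i % 4)

theorem par_check : allB 600 (fun i => i == 0 || (decide (par i < i) &&
    (dotz (nv i) (nv (par i))).1 == 14 && (dotz (nv i) (nv (par i))).2 == 24)) = true := by
  decide +kernel

theorem path_check : ∀ t : Fin 7, par (t + 1) = t := by decide +kernel

theorem X_check : ∀ t : Fin 7, ∀ s : Fin 4,
    zmul (zadd (16, 24) (14, 24)) (zsub (vecB 16777216 X600 (t + 1) s) (vecB 16777216 X600 t s)) =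
      zmul (zsub (dotz (vadd (nv (t + 1)) (nv t))
        (vecB 16777216 X600 (t + 1))) (zmul (zadd (2, 3) (2, 3)) (201204, 0)))
        (vadd (nv (t + 1)) (nv t) s) := by decide +kernel

theorem X0_check : dotz (nv 0) (vecB 16777216 X600 0) = zmul (2, 3) (201204, 0) := by
  decide +kernel

theorem X7_check : dotz (nv 7) (vecB 16777216 X600 7) = zmul (2, 3) (201204, 0) := by
  decide +kernel

theorem X0_check' : allB 600 (fun j => j == 0 ||
    pos (zsub (zmul (2, 3) (201204, 0)) (dotz (nv j) (vecB 16777216 X600 0)))) = true := by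
  decide +kernel

theorem X7_check' : allB 600 (fun j => j == 7 ||
    pos (zsub (zmul (2, 3) (201204, 0)) (dotz (nv j) (vecB 16777216 X600 7)))) = true := by
  decide +kernel

end Pool.Agent.R177.Cell600
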