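import Mathlib
import Pool.Agent.R177.Cell600

set_option autoImplicit false

namespace Pool.Agent.R177.Cell600

open Pool.Agent.R177.Unf Pool.Agent.R177.Phi Pool.Agent.R177.CellData RealInnerProductSpace Set Real
open Pool.Agent.R177.Cell120

theorem fok_spec {i : ℕ} (hi : i < 600) : f0 i < f1 i ∧ f1 i < f2 i ∧ f2 i < f3 i ∧ f3 i < 120 ∧
    (adjb (f0 i) (f1 i) = true ∧ adjb (f0 i) (f2 i) = true ∧ adjb (f0 i) (f3 i) = true ∧
      adjb (f1 i) (f2 i) = true ∧ adjb (f1 i) (f3 i) = true ∧ adjb (f2 i) (f3 i) = true) ∧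
    (row (f0 i) &&& row (f1 i) &&& row (f2 i) &&& row (f3 i)) = 0 := by
  have h := allB_spec fok_check i hi
  simp only [fok, Bool.and_eq_true, decide_eq_true_eq, beq_iff_eq] at h
  obtain ⟨⟨⟨⟨⟨h1, h2⟩, h3⟩, h4⟩, ⟨⟨⟨⟨h5, h6⟩, h7⟩, h8⟩, h9⟩, h10⟩, h11⟩ := h
  exact ⟨h1, h2, h3, h4, ⟨h5, h6, h7, h8, h9, h10⟩, h11⟩

theorem row_testBit {a v : ℕ} (hv : v < 120) : (row a).testBit v = adjb a v := by
  rw [row, Nat.testBit_mod_two_pow, Nat.testBit_div_two_pow, adjb, Nat.add_comm]
  simp [hv]

theorem not_all_adj {i v : ℕ} (hi : i < 600) (hv : v < 120) :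
    adjb (f0 i) v = false ∨ adjb (f1 i) v = false ∨ adjb (f2 i) v = false ∨
      adjb (f3 i) v = false := by
  have h := (fok_spec hi).2.2.2.2.2
  have h1 : (row (f0 i) &&& row (f1 i) &&& row (f2 i) &&& row (f3 i)).testBit v = false := by
    rw [h]; exact Nat.zero_testBit v
  rw [Nat.testBit_and, Nat.testBit_and, Nat.testBit_and, row_testBit hv, row_testBit hv,
    row_testBit hv, row_testBit hv] at h1
  simp only [Bool.and_eq_false_iff] at h1
  tauto

theorem toE_nv (i : ℕ) : toE (nv i) = toE (w (f0 i)) + toE (w (f1 i)) + (toE (w (f2 i)) +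
    toE (w (f3 i))) := by
  rw [nv, toE_vadd, toE_vadd, toE_vadd]

/-- The four vertices. -/
def IsVert (i v : ℕ) : Prop := f0 i = v ∨ f1 i = v ∨ f2 i = v ∨ f3 i = v

theorem inF_iff (i v : ℕ) : inF i v = true ↔ IsVert i v := by
  simp only [inF, IsVert, Bool.or_eq_true, beq_iff_eq, or_assoc]

theorem val02 : val (0, 2) = 2 * goldenRatio := by simp [val]
theorem val40 : val (4, 0) = 4 := by simp [val]
theorem val46 : val (4, 6) = 4 + 6 * goldenRatio := by simp [val]
theorem val26 : val (2, 6) = 2 + 6 * goldenRatio := by simp [val]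
theorem val23 : val (2, 3) = 2 + 3 * goldenRatio := by simp [val]
theorem val1424 : val (14, 24) = 14 + 24 * goldenRatio := by simp [val]
theorem val1624 : val (16, 24) = 16 + 24 * goldenRatio := by simp [val]

/-- Inner products of distinct vertices. -/
theorem gram_real {i j : ℕ} (hi : i < 120) (hj : j < 120) (hij : i ≠ j) :
    (adjb i j = true ∧ ⟪toE (w i), toE (w j)⟫ = 2 * goldenRatio) ∨
      (adjb i j = false ∧ ⟪toE (w i), toE (w j)⟫ ≤ 2) := by
  rw [inner_toE]
  rcases gram hi hj hij with ⟨h1, h2⟩ | ⟨h1, h2⟩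
  · exact Or.inl ⟨h1, by rw [h2, val02]⟩
  · exact Or.inr ⟨h1, h2⟩

theorem gram_self {i : ℕ} (hi : i < 120) : ⟪toE (w i), toE (w i)⟫ = 4 := by
  rw [inner_toE, dotz_self hi, val40]

theorem gram_le {i j : ℕ} (hi : i < 120) (hj : j < 120) (hij : i ≠ j) :
    ⟪toE (w i), toE (w j)⟫ ≤ 2 * goldenRatio := by
  have := phi_gt_one
  rcases gram_real hi hj hij with ⟨_, h⟩ | ⟨_, h⟩ <;> linarith

theorem gram_adj {i j : ℕ} (hi : i < 120) (hj : j < 120) (hij : i ≠ j) (h : adjb i j = true) :
    ⟪toE (w i), toE (w j)⟫ = 2 * goldenRatio := by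
  rcases gram_real hi hj hij with ⟨_, h'⟩ | ⟨h', _⟩
  · exact h'
  · rw [h] at h'; exact absurd h' (by decide)

theorem bounds {i : ℕ} (hi : i < 600) : f0 i < 120 ∧ f1 i < 120 ∧ f2 i < 120 ∧ f3 i < 120 := by
  have := fok_spec hi
  omega

/-- Inner products inside a facet. -/
theorem facet_gram {i : ℕ} (hi : i < 600) :
    ⟪toE (w (f0 i)), toE (w (f1 i))⟫ = 2 * goldenRatio ∧
    ⟪toE (w (f0 i)), toE (w (f2 i))⟫ = 2 * goldenRatio ∧
    ⟪toE (w (f0 i)), toE (w (f3 i))⟫ = 2 * goldenRatio ∧
    ⟪toE (w (f1 i)), toE (w (f2 i))⟫ = 2 * goldenRatio ∧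
    ⟪toE (w (f1 i)), toE (w (f3 i))⟫ = 2 * goldenRatio ∧
    ⟪toE (w (f2 i)), toE (w (f3 i))⟫ = 2 * goldenRatio := by
  obtain ⟨h1, h2, h3, h4, ⟨a1, a2, a3, a4, a5, a6⟩, -⟩ := fok_spec hi
  obtain ⟨b0, b1, b2, b3⟩ := bounds hi
  exact ⟨gram_adj b0 b1 (by omega) a1, gram_adj b0 b2 (by omega) a2, gram_adj b0 b3 (by omega) a3,
    gram_adj b1 b2 (by omega) a4, gram_adj b1 b3 (by omega) a5, gram_adj b2 b3 (by omega) a6⟩

theorem nv_vert {i v : ℕ} (hi : i < 600) (hv : IsVert i v) :
    ⟪toE (nv i), toE (w v)⟫ = 4 + 6 * goldenRatio := by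
  obtain ⟨g1, g2, g3, g4, g5, g6⟩ := facet_gram hi
  obtain ⟨b0, b1, b2, b3⟩ := bounds hi
  have s0 := gram_self b0
  have s1 := gram_self b1
  have s2 := gram_self b2
  have s3 := gram_self b3
  rw [toE_nv, inner_add_left, inner_add_left, inner_add_left]
  rcases hv with rfl | rfl | rfl | rfl
  · rw [real_inner_comm (toE (w (f0 i))) (toE (w (f1 i))),
      real_inner_comm (toE (w (f0 i))) (toE (w (f2 i))),
      real_inner_comm (toE (w (f0 i))) (toE (w (f3 i))), g1, g2, g3, s0]; ring
  · rw [real_inner_comm (toE (w (f1 i))) (toE (w (f2 i))),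
      real_inner_comm (toE (w (f1 i))) (toE (w (f3 i))), g1, g4, g5, s1]; ring
  · rw [real_inner_comm (toE (w (f2 i))) (toE (w (f3 i))), g2, g4, g6, s2]; ring
  · rw [g3, g5, g6, s3]; ring

theorem nv_not_vert {i v : ℕ} (hi : i < 600) (hv : v < 120) (hv' : ¬ IsVert i v) :
    ⟪toE (nv i), toE (w v)⟫ ≤ 2 + 6 * goldenRatio := by
  obtain ⟨b0, b1, b2, b3⟩ := bounds hi
  have hp := phi_gt_one
  have n0 : f0 i ≠ v := fun h => hv' (Or.inl h)
  have n1 : f1 i ≠ v := fun h => hv' (Or.inr (Or.inl h))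
  have n2 : f2 i ≠ v := fun h => hv' (Or.inr (Or.inr (Or.inl h)))
  have n3 : f3 i ≠ v := fun h => hv' (Or.inr (Or.inr (Or.inr h)))
  have g0 := gram_le b0 hv n0
  have g1 := gram_le b1 hv n1
  have g2 := gram_le b2 hv n2
  have g3 := gram_le b3 hv n3
  rw [toE_nv, inner_add_left, inner_add_left, inner_add_left]
  rcases not_all_adj hi hv with h | h | h | h
  · rcases gram_real b0 hv n0 with ⟨h', _⟩ | ⟨_, h'⟩
    · rw [h] at h'; exact absurd h' (by decide)
    · linarith
  · rcases gram_real b1 hv n1 with ⟨h', _⟩ | ⟨_, h'⟩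
    · rw [h] at h'; exact absurd h' (by decide)
    · linarith
  · rcases gram_real b2 hv n2 with ⟨h', _⟩ | ⟨_, h'⟩
    · rw [h] at h'; exact absurd h' (by decide)
    · linarith
  · rcases gram_real b3 hv n3 with ⟨h', _⟩ | ⟨_, h'⟩
    · rw [h] at h'; exact absurd h' (by decide)
    · linarith

theorem nv_le {i v : ℕ} (hi : i < 600) (hv : v < 120) :
    ⟪toE (nv i), toE (w v)⟫ ≤ 4 + 6 * goldenRatio := by
  by_cases h : IsVert i v
  · exact (nv_vert hi h).le
  · have := nv_not_vert hi hv h
    linarith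

theorem fk_eq (i : ℕ) : fk i = f0 i + 128 * f1 i + 16384 * f2 i + 2097152 * f3 i := by
  have := fk_lt i
  simp only [f0, f1, f2, f3]
  omega

theorem exists_not_vert {i j : ℕ} (hi : i < 600) (hj : j < 600) (hij : i ≠ j) :
    ¬ IsVert i (f0 j) ∨ ¬ IsVert i (f1 j) ∨ ¬ IsVert i (f2 j) ∨ ¬ IsVert i (f3 j) := by
  by_contra hcon
  push Not at hcon
  obtain ⟨h0, h1, h2, h3⟩ := hcon
  simp only [IsVert] at h0 h1 h2 h3
  have e1 := fok_spec hi
  have e2 := fok_spec hj
  have hk1 := fk_eq i
  have hk2 := fk_eq j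
  have hne : fk i ≠ fk j := by
    rcases lt_or_gt_of_ne hij with h | h
    · have := allB_spec (allB_spec dist_check j hj) i h
      simp only [Bool.not_eq_true', beq_eq_false_iff_ne, ne_eq] at this
      exact fun h' => this h'.symm
    · have := allB_spec (allB_spec dist_check i hi) j h
      simp only [Bool.not_eq_true', beq_eq_false_iff_ne, ne_eq] at this
      exact this
  obtain ⟨a1, a2, a3, -, -, -⟩ := e1
  obtain ⟨c1, c2, c3, -, -, -⟩ := e2
  apply hne
  rw [hk1, hk2]
  generalize f0 i = x0 at *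
  generalize f1 i = x1 at *
  generalize f2 i = x2 at *
  generalize f3 i = x3 at *
  generalize f0 j = y0 at *
  generalize f1 j = y1 at *
  generalize f2 j = y2 at *
  generalize f3 j = y3 at *
  have k0 : y0 = x0 := by
    rcases h0 with h | h | h | h
    · exact h.symm
    · exfalso; rcases h1 with h | h | h | h <;> rcases h2 with h | h | h | h <;>
        rcases h3 with h | h | h | h <;> omega
    · exfalso; rcases h1 with h | h | h | h <;> rcases h2 with h | h | h | h <;>
        rcases h3 with h | h | h | h <;> omega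
    · exfalso; rcases h1 with h | h | h | h <;> rcases h2 with h | h | h | h <;>
        rcases h3 with h | h | h | h <;> omega
  have k1 : y1 = x1 := by
    rcases h1 with h | h | h | h
    · exfalso; omega
    · exact h.symm
    · exfalso; rcases h2 with h | h | h | h <;> rcases h3 with h | h | h | h <;> omega
    · exfalso; rcases h2 with h | h | h | h <;> rcases h3 with h | h | h | h <;> omega
  have k2 : y2 = x2 := by
    rcases h2 with h | h | h | h
    · exfalso; omega
    · exfalso; omega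
    · exact h.symm
    · exfalso; rcases h3 with h | h | h | h <;> omega
  have k3 : y3 = x3 := by
    rcases h3 with h | h | h | h
    · exfalso; omega
    · exfalso; omega
    · exfalso; omega
    · exact h.symm
  omega

noncomputable def N600 (i : Fin (599 + 1)) : E := toE (nv i)

theorem reg600 : Reg N600 (val (2, 3)) (val (16, 24)) (val (14, 24)) := by
  have hp := phi_gt_one
  have hp2 := goldenRatio_lt_two
  constructor
  · rw [val23]; linarith
  · intro i
    have hi := i.2
    have e : ⟪N600 i, N600 i⟫ = ⟪toE (nv i), toE (w (f0 i)) + toE (w (f1 i)) + (toE (w (f2 i)) +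
      toE (w (f3 i)))⟫ := by
      rw [← toE_nv]; rfl
    rw [e, inner_add_right, inner_add_right, inner_add_right, nv_vert hi (Or.inl rfl),
      nv_vert hi (Or.inr (Or.inl rfl)), nv_vert hi (Or.inr (Or.inr (Or.inl rfl))),
      nv_vert hi (Or.inr (Or.inr (Or.inr rfl))), val1624]
    ring
  · intro i j hij
    have hi := i.2
    have hj := j.2
    have hij' : (i : ℕ) ≠ j := fun h => hij (Fin.ext h)
    have e : ⟪N600 i, N600 j⟫ = ⟪toE (nv i), toE (w (f0 j)) + toE (w (f1 j)) + (toE (w (f2 j)) +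
      toE (w (f3 j)))⟫ := by
      rw [← toE_nv]; rfl
    obtain ⟨b0, b1, b2, b3⟩ := bounds hj
    rw [e, inner_add_right, inner_add_right, inner_add_right, val1424]
    have l0 := nv_le hi b0
    have l1 := nv_le hi b1
    have l2 := nv_le hi b2
    have l3 := nv_le hi b3
    rcases exists_not_vert hi hj hij' with h | h | h | h
    · have := nv_not_vert hi b0 h
      linarith
    · have := nv_not_vert hi b1 h
      linarith
    · have := nv_not_vert hi b2 h
      linarith
    · have := nv_not_vert hi b3 h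
      linarith
  · rw [val1424, val1624]; linarith
  · rw [val1424, val1624]; linarith

/-- The neighbours of a facet. -/
theorem nbok_spec {i : ℕ} (hi : i < 600) (a : Fin 4) : ∃ j, j < 600 ∧ ¬ IsVert j (fv i a) ∧
    ∀ b, b ≠ a → IsVert j (fv i b) := by
  have h := allB_spec nbok_check i hi
  simp only [nbok, Bool.and_eq_true, Bool.not_eq_true', decide_eq_true_eq] at h
  have hF : ∀ j v, inF j v = false ↔ ¬ IsVert j v := by
    intro j v
    rw [← inF_iff, Bool.not_eq_true]
  simp only [inF_iff, hF] at h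
  obtain ⟨⟨⟨⟨⟨⟨⟨a1, a2⟩, a3⟩, a4⟩, a5⟩, ⟨⟨⟨⟨b1, b2⟩, b3⟩, b4⟩, b5⟩⟩, ⟨⟨⟨⟨c1, c2⟩, c3⟩, c4⟩, c5⟩⟩,
    ⟨⟨⟨⟨d1, d2⟩, d3⟩, d4⟩, d5⟩⟩ := h
  fin_cases a
  · refine ⟨_, a1, a2, fun b hb => ?_⟩
    fin_cases b
    · exact absurd rfl hb
    · exact a3
    · exact a4
    · exact a5
  · refine ⟨_, b1, b3, fun b hb => ?_⟩
    fin_cases b
    · exact b2
    · exact absurd rfl hb
    · exact b4
    · exact b5
  · refine ⟨_, c1, c4, fun b hb => ?_⟩
    fin_cases b
    · exact c2
    · exact c3
    · exact absurd rfl hb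
    · exact c5
  · refine ⟨_, d1, d5, fun b hb => ?_⟩
    fin_cases b
    · exact d2
    · exact d3
    · exact d4
    · exact absurd rfl hb

theorem isVert_fv (i : ℕ) (a : Fin 4) : IsVert i (fv i a) := by
  fin_cases a
  · exact Or.inl rfl
  · exact Or.inr (Or.inl rfl)
  · exact Or.inr (Or.inr (Or.inl rfl))
  · exact Or.inr (Or.inr (Or.inr rfl))

theorem fv_lt {i : ℕ} (hi : i < 600) (a : Fin 4) : fv i a < 120 := by
  obtain ⟨b0, b1, b2, b3⟩ := bounds hi
  fin_cases a
  · exact b0
  · exact b1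
  · exact b2
  · exact b3

theorem fv_gram {i : ℕ} (hi : i < 600) (a b : Fin 4) :
    ⟪toE (w (fv i a)), toE (w (fv i b))⟫ = if a = b then 4 else 2 * goldenRatio := by
  obtain ⟨g1, g2, g3, g4, g5, g6⟩ := facet_gram hi
  obtain ⟨b0, b1, b2, b3⟩ := bounds hi
  have s0 := gram_self b0
  have s1 := gram_self b1
  have s2 := gram_self b2
  have s3 := gram_self b3
  have g1' := g1; have g2' := g2; have g3' := g3; have g4' := g4; have g5' := g5; have g6' := g6
  rw [real_inner_comm] at g1' g2' g3' g4' g5' g6'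
  rw [real_inner_self_eq_norm_sq] at s0 s1 s2 s3
  fin_cases a <;> fin_cases b <;> simp [fv, *]

/-- The four vertices of a facet form a basis. -/
theorem fv_span {i : ℕ} (hi : i < 600) (y : E) : ∃ c : Fin 4 → ℝ,
    y = ∑ a, c a • toE (w (fv i a)) := by
  have hp := phi_gt_one
  have hp2 := goldenRatio_lt_two
  have hli : LinearIndependent ℝ (fun a : Fin 4 => toE (w (fv i a))) := by
    rw [Fintype.linearIndependent_iff]
    intro c hc
    have key : ∀ b, (4 - 2 * goldenRatio) * c b + 2 * goldenRatio * (c 0 + c 1 + c 2 + c 3) = 0 := by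
      intro b
      have h1 : ⟪∑ a, c a • toE (w (fv i a)), toE (w (fv i b))⟫ = 0 := by
        rw [hc, inner_zero_left]
      rw [sum_inner] at h1
      simp only [inner_smul_left, conj_trivial, fv_gram hi, Fin.sum_univ_four] at h1
      fin_cases b <;> simp at h1 ⊢ <;> linarith
    have hs : (4 + 6 * goldenRatio) * (c 0 + c 1 + c 2 + c 3) = 0 := by
      linear_combination key 0 + key 1 + key 2 + key 3
    have hs' : c 0 + c 1 + c 2 + c 3 = 0 := by
      rcases mul_eq_zero.1 hs with h | h
      · linarith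
      · exact h
    intro b
    have h2 := key b
    rw [hs', mul_zero, add_zero] at h2
    rcases mul_eq_zero.1 h2 with h | h
    · linarith
    · exact h
  have hsp := hli.span_eq_top_of_card_eq_finrank' (by
    rw [Fintype.card_fin, finrank_euclideanSpace_fin])
  have hy : y ∈ Submodule.span ℝ (range fun a : Fin 4 => toE (w (fv i a))) := by
    rw [hsp]; trivial
  obtain ⟨c, hc⟩ := (Submodule.mem_span_range_iff_exists_fun ℝ).1 hy
  exact ⟨c, hc.symm⟩

theorem zero_mem_cell600 : (0 : E) ∈ cell600 := by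
  have h1 : (EuclideanSpace.single 0 1 : E) ∈ cell600 := by
    apply subset_convexHull
    left
    exact ⟨0, by simp, fun j hj => by simp [hj]⟩
  have h2 : (EuclideanSpace.single 0 (-1) : E) ∈ cell600 := by
    apply subset_convexHull
    left
    exact ⟨0, by simp, fun j hj => by simp [hj]⟩
  have h3 := (convex_convexHull ℝ V600) h1 h2 (a := 1 / 2) (b := 1 / 2) (by norm_num) (by norm_num)
    (by norm_num)
  have h4 : (1 / 2 : ℝ) • (EuclideanSpace.single 0 1 : E) +
      (1 / 2 : ℝ) • (EuclideanSpace.single 0 (-1) : E) = 0 := by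
    ext l
    by_cases hl : l = 0
    · subst hl; simp
    · simp [hl]
  rw [h4] at h3
  exact h3

theorem cell600_eq : cell600 = Pol N600 (val (2, 3)) := by
  have hp := phi_gt_one
  apply Subset.antisymm
  · apply convexHull_min _ (Cell24.convex_Pol _ _)
    intro v hv i
    obtain ⟨k, rfl⟩ := (mem_V600_iff v).1 hv
    have h1 := nv_le i.2 k.2
    rw [N600, inner_smul_right, val23]
    linarith
  · intro y hy
    obtain ⟨i, hi⟩ := Finite.exists_max (fun i : Fin (599 + 1) => ⟪N600 i, y⟫)
    obtain ⟨c, hc⟩ := fv_span i.2 y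
    have hinner : ∀ j : ℕ, ⟪toE (nv j), y⟫ = ∑ a, c a * ⟪toE (nv j), toE (w (fv i a))⟫ := by
      intro j
      rw [hc, inner_sum]
      exact Finset.sum_congr rfl fun a _ => inner_smul_right _ _ _
    have hc0 : ∀ a, 0 ≤ c a := by
      intro a
      obtain ⟨j, hj, hja, hjb⟩ := nbok_spec i.2 a
      have h1 : ⟪toE (nv j), y⟫ ≤ ⟪toE (nv i), y⟫ := hi ⟨j, hj⟩
      rw [hinner, hinner] at h1
      have h2 : ∑ b, c b * ⟪toE (nv j), toE (w (fv i b))⟫ - ∑ b, c b * ⟪toE (nv i), toE (w (fv i b))⟫
          = c a * (⟪toE (nv j), toE (w (fv i a))⟫ - (4 + 6 * goldenRatio)) := by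
        rw [← Finset.sum_sub_distrib]
        rw [Finset.sum_eq_single a]
        · rw [nv_vert i.2 (isVert_fv i a)]; ring
        · intro b _ hb
          rw [nv_vert hj (hjb b hb), nv_vert i.2 (isVert_fv i b)]; ring
        · intro h; exact absurd (Finset.mem_univ _) h
      have h3 := nv_not_vert hj (fv_lt i.2 a) hja
      by_contra hcon
      push Not at hcon
      nlinarith
    have hsum : ∑ a, c a ≤ 1 / 2 := by
      have h1 := hy i
      have h2 : ⟪N600 i, y⟫ = (∑ a, c a) * (4 + 6 * goldenRatio) := by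
        rw [N600, hinner, Finset.sum_mul]
        exact Finset.sum_congr rfl fun a _ => by rw [nv_vert i.2 (isVert_fv i a)]
      rw [h2, val23] at h1
      nlinarith
    have hcv : Convex ℝ cell600 := convex_convexHull ℝ _
    have hv : ∀ a, (1 / 2 : ℝ) • toE (w (fv i a)) ∈ cell600 := by
      intro a
      apply subset_convexHull
      exact (mem_V600_iff _).2 ⟨⟨fv i a, fv_lt i.2 a⟩, rfl⟩
    have h3 := hcv.sum_mem (t := (Finset.univ : Finset (Option (Fin 4))))
      (w := fun o => o.elim (1 - 2 * ∑ a, c a) (fun a => 2 * c a))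
      (z := fun o => o.elim 0 (fun a => (1 / 2 : ℝ) • toE (w (fv i a)))) (by
        rintro (_ | a) _
        · simp only [Option.elim_none]; linarith
        · simp only [Option.elim_some]; linarith [hc0 a]) (by
        rw [Fintype.sum_option]
        simp only [Option.elim_none, Option.elim_some]
        rw [← Finset.mul_sum]; ring) (by
        rintro (_ | a) _
        · exact zero_mem_cell600
        · exact hv a)
    rw [Fintype.sum_option] at h3
    simp only [Option.elim_none, Option.elim_some, smul_zero, zero_add, smul_smul] at h3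
    have h4 : ∀ a, 2 * c a * (1 / 2) = c a := fun a => by ring
    simp only [h4] at h3
    rw [hc]
    exact h3

theorem not_allNet_cell600 : ¬ AllNet cell600 := by
  rw [cell600_eq]
  refine not_allNet_of_data (n := 599) nv (2, 3) (16, 24) (14, 24) reg600
    par ?_ ?_ 7 (by norm_num) (by norm_num) ?_
    (fun t => vecB 16777216 X600 t) (201204, 0) (by decide) ?_ ?_ ?_ ?_ ?_
  · intro i hi hi0
    have := allB_spec par_check i hi
    simp only [Bool.or_eq_true, beq_iff_eq, Bool.and_eq_true, decide_eq_true_eq] at this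
    rcases this with h | h
    · exact absurd h hi0
    · exact h.1.1
  · intro i hi hi0
    have := allB_spec par_check i hi
    simp only [Bool.or_eq_true, beq_iff_eq, Bool.and_eq_true, decide_eq_true_eq] at this
    rcases this with h | h
    · exact absurd h hi0
    · exact Prod.ext h.1.2 h.2
  · exact fun i hi => path_check ⟨i, hi⟩
  · exact fun i hi => X_check ⟨i, hi⟩
  · exact X0_check
  · intro j hj hj0
    have := allB_spec X0_check' j hj
    simp only [Bool.or_eq_true, beq_iff_eq] at this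
    rcases this with h | h
    · exact absurd h hj0
    · exact h
  · exact X7_check
  · intro j hj hj0
    have := allB_spec X7_check' j hj
    simp only [Bool.or_eq_true, beq_iff_eq] at this
    rcases this with h | h
    · exact absurd h hj0
    · exact h

end Pool.Agent.R177.Cell600
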