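import Mathlib

/-!
# Ridge unfoldings of polytopes in `ℝ⁴`

Definitions (facet, ridge, dual graph, ridge unfolding, all-net) and a criterion for a polytope
given by linear inequalities with normals of equal length not to be all-net.
-/

set_option autoImplicit false

namespace Pool.Agent.R177.Unf

open Set RealInnerProductSpace Filter Topology

section
variable {V : Type} [NormedAddCommGroup V] [NormedSpace ℝ V]

/-- `F` is an exposed face of `P`, of dimension `k`. -/
def IsFaceOfDim (k : ℕ) (P F : Set V) : Prop :=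
  IsExposed ℝ P F ∧ Module.finrank ℝ (vectorSpan ℝ F) = k

/-- The facets (three-dimensional faces) of a four-dimensional polytope `P`. -/
abbrev Facet (P : Set V) := {F : Set V // IsFaceOfDim 3 P F}

/-- The dual graph: two facets are adjacent when they share a ridge (two-dimensional face). -/
def dualGraph (P : Set V) : SimpleGraph (Facet P) where
  Adj F G := F ≠ G ∧ ∃ R, IsFaceOfDim 2 P R ∧ R ⊆ F.1 ∧ R ⊆ G.1
  symm := ⟨fun _ _ h => ⟨h.1.symm, h.2.imp fun _ hR => ⟨hR.1, hR.2.2, hR.2.1⟩⟩⟩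
  loopless := ⟨fun _ h => h.1 rfl⟩

/-- The isometry `φ` maps `F` into `H`. -/
def MapsInto (φ : V ≃ᵃⁱ[ℝ] V) (F : Set V) (H : AffineSubspace ℝ V) : Prop := ∀ x ∈ F, φ x ∈ H

/-- The isometries `φ` and `ψ` agree on `F`. -/
def AgreeOn (φ ψ : V ≃ᵃⁱ[ℝ] V) (F : Set V) : Prop := ∀ x ∈ F, φ x = ψ x

/-- The images `φ(F)` and `ψ(G)` lie on different sides of a hyperplane of `H` (the zero set in `H`
of an affine function `g` that does not vanish on all of `H`). -/
def Separated (H : AffineSubspace ℝ V) (φ ψ : V ≃ᵃⁱ[ℝ] V) (F G : Set V) : Prop :=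
  ∃ g : V →ᵃ[ℝ] ℝ, (∃ y ∈ H, g y ≠ 0) ∧ (∀ x ∈ F, g (φ x) ≤ 0) ∧ (∀ x ∈ G, 0 ≤ g (ψ x))

/-- The relative interiors of the images `φ(F)` and `ψ(G)` have a common point. -/
def Overlap (φ ψ : V ≃ᵃⁱ[ℝ] V) (F G : Set V) : Prop :=
  (intrinsicInterior ℝ (φ '' F) ∩ intrinsicInterior ℝ (ψ '' G)).Nonempty

/-- `φ` develops the facets of the 4-polytope `P` into the hyperplane `H` along the spanning tree
`T` of the dual graph: every facet is mapped into `H` by an isometry, and for two facets that are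
adjacent in `T` the two isometries agree on the common points, and the two images lie on different
sides of a plane of `H`. -/
structure IsRidgeUnfolding (P : Set V) (T : SimpleGraph (Facet P)) (H : AffineSubspace ℝ V)
    (φ : Facet P → (V ≃ᵃⁱ[ℝ] V)) : Prop where
  le : T ≤ dualGraph P
  tree : T.IsTree
  dim : Module.finrank ℝ H.direction = 3
  sub : ∀ F, MapsInto (φ F) F.1 H
  agree : ∀ F G, T.Adj F G → AgreeOn (φ F) (φ G) (F.1 ∩ G.1)
  sides : ∀ F G, T.Adj F G → Separated H (φ F) (φ G) F.1 G.1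

/-- The 4-polytope `P` is all-net: in every ridge unfolding the relative interiors of the images of
any two distinct facets are disjoint. -/
def AllNet (P : Set V) : Prop :=
  ∀ (T : SimpleGraph (Facet P)) (H : AffineSubspace ℝ V) (φ : Facet P → (V ≃ᵃⁱ[ℝ] V)),
    IsRidgeUnfolding P T H φ → ∀ F G, F ≠ G → ¬ Overlap (φ F) (φ G) F.1 G.1

end

/-- Four-dimensional Euclidean space. -/
abbrev E := EuclideanSpace ℝ (Fin 4)

section
variable {n : ℕ} (N : Fin (n + 1) → E) (h R m : ℝ)

/-- The polyhedron `{x | ⟪N i, x⟫ ≤ h for all i}`. -/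
def Pol : Set E := {x | ∀ i, ⟪N i, x⟫ ≤ h}

/-- The face of `Pol` on which the inequalities in `A` are equalities. -/
def Fc (A : Set (Fin (n + 1))) : Set E := {x | x ∈ Pol N h ∧ ∀ i ∈ A, ⟪N i, x⟫ = h}

/-- The normals all have squared length `R` and their inner products are at most `m < R`. -/
structure Reg : Prop where
  hh : 0 < h
  hR : ∀ i, ⟪N i, N i⟫ = R
  hm : ∀ i j, i ≠ j → ⟪N i, N j⟫ ≤ m
  hmR : m < R
  hRm : 0 < R + m

end

variable {n : ℕ} {N : Fin (n + 1) → E} {h R m : ℝ}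

theorem Reg.R_pos (hN : Reg N h R m) : 0 < R := by
  have h1 := hN.hmR
  have h2 := hN.hRm
  linarith

theorem local_dir {A : Set (Fin (n + 1))} {c w : E} (hc1 : ∀ i ∈ A, ⟪N i, c⟫ = h)
    (hc2 : ∀ i, i ∉ A → ⟪N i, c⟫ < h) (hw : ∀ i ∈ A, ⟪N i, w⟫ = 0) :
    ∃ ε : ℝ, 0 < ε ∧ c + ε • w ∈ Fc N h A := by
  have h1 : ∀ᶠ ε in 𝓝 (0 : ℝ), ∀ i, i ∉ A → ⟪N i, c + ε • w⟫ < h := by
    rw [Filter.eventually_all]
    intro i
    by_cases hi : i ∈ A
    · exact Filter.Eventually.of_forall fun _ h => absurd hi h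
    · have hcont : Continuous fun ε : ℝ => ⟪N i, c + ε • w⟫ := by fun_prop
      have h2 : ⟪N i, c + (0 : ℝ) • w⟫ < h := by
        rw [zero_smul, add_zero]; exact hc2 i hi
      filter_upwards [hcont.continuousAt.eventually (gt_mem_nhds h2)] with ε hε _
      exact hε
  have h2 : ∀ᶠ ε in 𝓝[>] (0 : ℝ), ∀ i, i ∉ A → ⟪N i, c + ε • w⟫ < h := nhdsWithin_le_nhds h1
  obtain ⟨ε, hε1, hε2⟩ := (h2.and self_mem_nhdsWithin).exists
  have h3 : ∀ i ∈ A, ⟪N i, c + ε • w⟫ = h := by
    intro i hi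
    rw [inner_add_right, inner_smul_right, hw i hi, hc1 i hi]; ring
  refine ⟨ε, hε2, ⟨fun i => ?_, h3⟩⟩
  by_cases hi : i ∈ A
  · exact (h3 i hi).le
  · exact (hε1 i hi).le

theorem mem_span_orth {A : Set (Fin (n + 1))} {w : E} :
    w ∈ (Submodule.span ℝ (N '' A))ᗮ ↔ ∀ i ∈ A, ⟪N i, w⟫ = 0 := by
  rw [Submodule.mem_orthogonal]
  constructor
  · intro h i hi
    exact h _ (Submodule.subset_span ⟨i, hi, rfl⟩)
  · intro h u hu
    induction hu using Submodule.span_induction with
    | mem x hx =>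
      obtain ⟨i, hi, rfl⟩ := hx
      exact h i hi
    | zero => exact inner_zero_left _
    | add x y _ _ hx hy => rw [inner_add_left, hx, hy, add_zero]
    | smul a x _ hx => rw [inner_smul_left, hx, mul_zero]

theorem vectorSpan_Fc {A : Set (Fin (n + 1))} {c : E} (hc1 : ∀ i ∈ A, ⟪N i, c⟫ = h)
    (hc2 : ∀ i, i ∉ A → ⟪N i, c⟫ < h) :
    vectorSpan ℝ (Fc N h A) = (Submodule.span ℝ (N '' A))ᗮ := by
  have hc : c ∈ Fc N h A := by
    refine ⟨fun i => ?_, hc1⟩
    by_cases hi : i ∈ A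
    · exact (hc1 i hi).le
    · exact (hc2 i hi).le
  apply le_antisymm
  · rw [vectorSpan_def, Submodule.span_le]
    rintro _ ⟨x, hx, y, hy, rfl⟩
    rw [SetLike.mem_coe, mem_span_orth]
    intro i hi
    simp only [vsub_eq_sub]
    rw [inner_sub_right, hx.2 i hi, hy.2 i hi, sub_self]
  · intro w hw
    rw [mem_span_orth] at hw
    obtain ⟨ε, hε, hmem⟩ := local_dir hc1 hc2 hw
    have h1 : (c + ε • w) -ᵥ c ∈ vectorSpan ℝ (Fc N h A) := vsub_mem_vectorSpan ℝ hmem hc
    have h2 : ε • w ∈ vectorSpan ℝ (Fc N h A) := by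
      simpa [vsub_eq_sub] using h1
    have h3 := Submodule.smul_mem _ ε⁻¹ h2
    rwa [smul_smul, inv_mul_cancel₀ hε.ne', one_smul] at h3

/-- The centre of the `i`-th facet. -/
theorem center_prop (hN : Reg N h R m) (i : Fin (n + 1)) :
    ⟪N i, (h / R) • N i⟫ = h ∧ ∀ j, j ≠ i → ⟪N j, (h / R) • N i⟫ < h := by
  have hR := hN.R_pos
  refine ⟨?_, fun j hj => ?_⟩
  · rw [inner_smul_right, hN.hR, div_mul_cancel₀ _ hR.ne']
  · rw [inner_smul_right]
    have h1 := hN.hm j i hj
    have h2 : h / R * ⟪N j, N i⟫ ≤ h / R * m :=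
      mul_le_mul_of_nonneg_left h1 (div_nonneg hN.hh.le hR.le)
    have h3 : h / R * m < h / R * R :=
      mul_lt_mul_of_pos_left hN.hmR (div_pos hN.hh hR)
    rw [div_mul_cancel₀ _ hR.ne'] at h3
    linarith

theorem exposed_Fc {A : Set (Fin (n + 1))} (hA : A.Finite) {c : E} (hc1 : ∀ i ∈ A, ⟪N i, c⟫ = h)
    (hcP : c ∈ Pol N h) : IsExposed ℝ (Pol N h) (Fc N h A) := by
  intro _
  have hA' := hA.toFinset
  refine ⟨innerSL ℝ (∑ i ∈ hA.toFinset, N i), ?_⟩
  have hval : ∀ x : E, innerSL ℝ (∑ i ∈ hA.toFinset, N i) x = ∑ i ∈ hA.toFinset, ⟪N i, x⟫ := by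
    intro x
    rw [innerSL_apply_apply, sum_inner]
  ext x
  simp only [hval]
  constructor
  · rintro ⟨hx1, hx2⟩
    refine ⟨hx1, fun y hy => ?_⟩
    apply Finset.sum_le_sum
    intro i hi
    rw [hx2 i (hA.mem_toFinset.1 hi)]
    exact hy i
  · rintro ⟨hx1, hx2⟩
    refine ⟨hx1, ?_⟩
    have h1 := hx2 c hcP
    have h2 : ∑ i ∈ hA.toFinset, (h - ⟪N i, x⟫) ≤ 0 := by
      rw [Finset.sum_sub_distrib]
      have : ∑ i ∈ hA.toFinset, ⟪N i, c⟫ = ∑ i ∈ hA.toFinset, h :=
        Finset.sum_congr rfl fun i hi => hc1 i (hA.mem_toFinset.1 hi)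
      rw [← this]
      linarith
    have h3 : ∀ i ∈ hA.toFinset, 0 ≤ h - ⟪N i, x⟫ := fun i _ => by
      have := hx1 i
      linarith
    intro i hi
    have h4 := (Finset.sum_eq_zero_iff_of_nonneg h3).1 (le_antisymm h2 (Finset.sum_nonneg h3)) i
      (hA.mem_toFinset.2 hi)
    linarith

theorem N_ne_zero (hN : Reg N h R m) (i : Fin (n + 1)) : N i ≠ 0 := by
  intro h0
  have h1 := hN.hR i
  have h2 := hN.R_pos
  rw [h0, inner_zero_left] at h1
  linarith

theorem finrank_orth_one (hN : Reg N h R m) (i : Fin (n + 1)) :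
    Module.finrank ℝ ((Submodule.span ℝ (N '' {i}))ᗮ : Submodule ℝ E) = 3 := by
  rw [image_singleton]
  have h1 := Submodule.finrank_add_finrank_orthogonal (Submodule.span ℝ ({N i} : Set E))
  rw [finrank_span_singleton (N_ne_zero hN i), finrank_euclideanSpace_fin] at h1
  omega

theorem isFacet_Fc (hN : Reg N h R m) (i : Fin (n + 1)) : IsFaceOfDim 3 (Pol N h) (Fc N h {i}) := by
  obtain ⟨h1, h2⟩ := center_prop hN i
  have hP : (h / R) • N i ∈ Pol N h := by
    intro j
    by_cases hj : j = i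
    · rw [hj]; exact h1.le
    · exact (h2 j hj).le
  refine ⟨exposed_Fc (finite_singleton i) (c := (h / R) • N i) ?_ hP, ?_⟩
  · rintro j rfl; exact h1
  · rw [vectorSpan_Fc (A := {i}) (c := (h / R) • N i) (by rintro j rfl; exact h1)
      (fun j hj => h2 j hj)]
    exact finrank_orth_one hN i

theorem isRidge_Fc (hN : Reg N h R m) {i j : Fin (n + 1)} (hij : i ≠ j) (hm : ⟪N i, N j⟫ = m) :
    IsFaceOfDim 2 (Pol N h) (Fc N h {i, j}) := by
  have hR := hN.R_pos
  have hRm := hN.hRm
  have hmR := hN.hmR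
  have hh := hN.hh
  have hm' : ⟪N j, N i⟫ = m := by rw [real_inner_comm]; exact hm
  set c : E := (h / (R + m)) • (N i + N j) with hc
  have hc1 : ∀ k ∈ ({i, j} : Set (Fin (n + 1))), ⟪N k, c⟫ = h := by
    rintro k (rfl | rfl)
    · rw [hc, inner_smul_right, inner_add_right, hN.hR, hm, div_mul_cancel₀ _ hRm.ne']
    · rw [hc, inner_smul_right, inner_add_right, hN.hR, hm', add_comm m R,
        div_mul_cancel₀ _ hRm.ne']
  have hc2 : ∀ k, k ∉ ({i, j} : Set (Fin (n + 1))) → ⟪N k, c⟫ < h := by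
    intro k hk
    have hki : k ≠ i := fun h' => hk (by simp [h'])
    have hkj : k ≠ j := fun h' => hk (by simp [h'])
    rw [hc, inner_smul_right, inner_add_right]
    have h1 := hN.hm k i hki
    have h2 := hN.hm k j hkj
    have h3 : ⟪N k, N i⟫ + ⟪N k, N j⟫ < R + m := by linarith
    have h4 : h / (R + m) * (⟪N k, N i⟫ + ⟪N k, N j⟫) < h / (R + m) * (R + m) :=
      mul_lt_mul_of_pos_left h3 (div_pos hh hRm)
    rwa [div_mul_cancel₀ _ hRm.ne'] at h4
  have hP : c ∈ Pol N h := by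
    intro k
    by_cases hk : k ∈ ({i, j} : Set (Fin (n + 1)))
    · exact (hc1 k hk).le
    · exact (hc2 k hk).le
  refine ⟨exposed_Fc (toFinite _) hc1 hP, ?_⟩
  rw [vectorSpan_Fc hc1 hc2]
  have hli : LinearIndependent ℝ ![N i, N j] := by
    rw [LinearIndependent.pair_iff]
    intro s t hst
    have e1 : s * R + t * m = 0 := by
      have : ⟪N i, s • N i + t • N j⟫ = 0 := by rw [hst, inner_zero_right]
      rw [inner_add_right, inner_smul_right, inner_smul_right, hN.hR, hm] at this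
      exact this
    have e2 : s * m + t * R = 0 := by
      have : ⟪N j, s • N i + t • N j⟫ = 0 := by rw [hst, inner_zero_right]
      rw [inner_add_right, inner_smul_right, inner_smul_right, hN.hR, hm'] at this
      exact this
    have e3 : (s + t) * (R + m) = 0 := by linear_combination e1 + e2
    have e4 : (s - t) * (R - m) = 0 := by linear_combination e1 - e2
    have e5 : s + t = 0 := (mul_eq_zero.1 e3).resolve_right hRm.ne'
    have e6 : s - t = 0 := (mul_eq_zero.1 e4).resolve_right (by linarith)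
    constructor <;> linarith
  have h1 := finrank_span_eq_card hli
  have h2 : range ![N i, N j] = N '' {i, j} := by
    rw [image_pair]; simp [Matrix.range_cons, Matrix.range_empty]
    exact pair_comm _ _
  rw [h2, Fintype.card_fin] at h1
  have h3 := Submodule.finrank_add_finrank_orthogonal (Submodule.span ℝ (N '' {i, j}))
  rw [h1, finrank_euclideanSpace_fin] at h3
  omega

theorem Fc_injective (hN : Reg N h R m) {i j : Fin (n + 1)} (hij : Fc N h {i} = Fc N h {j}) :
    i = j := by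
  obtain ⟨h1, h2⟩ := center_prop hN i
  by_contra hne
  have h3 : (h / R) • N i ∈ Fc N h {i} := by
    refine ⟨fun k => ?_, ?_⟩
    · by_cases hk : k = i
      · rw [hk]; exact h1.le
      · exact (h2 k hk).le
    · rintro k rfl; exact h1
  rw [hij] at h3
  have h4 := h3.2 j rfl
  have h5 := h2 j (Ne.symm hne)
  linarith

/-- Every facet of `Pol N h` is one of the listed ones. -/
theorem facet_eq (hN : Reg N h R m) {F : Set E} (hF : IsFaceOfDim 3 (Pol N h) F) :
    ∃ i, F = Fc N h {i} := by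
  obtain ⟨hexp, hdim⟩ := hF
  have hne : F.Nonempty := by
    rw [nonempty_iff_ne_empty]
    rintro rfl
    rw [vectorSpan_empty, finrank_bot] at hdim
    omega
  obtain ⟨l, hl⟩ := hexp hne
  have hsub : F ⊆ Pol N h := by
    rw [hl]; exact fun x hx => hx.1
  have hPc : Convex ℝ (Pol N h) := by
    have : Pol N h = ⋂ i, {x : E | (innerSL ℝ (N i)) x ≤ h} := by
      ext x
      simp only [mem_iInter, mem_ofPred_eq, innerSL_apply_apply]
      rfl
    rw [this]
    exact convex_iInter fun i => convex_halfSpace_le (innerSL ℝ (N i)).isLinear h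
  have hFc : Convex ℝ F := hexp.convex hPc
  -- some inequality is an equality on all of `F`
  have hex : ∃ i, ∀ x ∈ F, ⟪N i, x⟫ = h := by
    by_contra hcon
    push Not at hcon
    choose x hxF hx using hcon
    have hx' : ∀ i, ⟪N i, x i⟫ < h := fun i => lt_of_le_of_ne (hsub (hxF i) i) (hx i)
    set y : E := ∑ i, (1 / ((n : ℝ) + 1)) • x i with hy
    have hn : (0 : ℝ) < (n : ℝ) + 1 := by positivity
    have hyF : y ∈ F := by
      apply hFc.sum_mem
      · intro i _; positivity
      · simp only [Finset.sum_const, Finset.card_univ, Fintype.card_fin, nsmul_eq_mul]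
        push_cast
        field_simp
      · intro i _; exact hxF i
    have hy2 : ∀ i, ⟪N i, y⟫ < h := by
      intro i
      have h1 : ⟪N i, y⟫ = ∑ j, (1 / ((n : ℝ) + 1)) * ⟪N i, x j⟫ := by
        rw [hy, inner_sum]
        exact Finset.sum_congr rfl fun j _ => inner_smul_right _ _ _
      have h2 : h = ∑ j : Fin (n + 1), (1 / ((n : ℝ) + 1)) * h := by
        simp only [Finset.sum_const, Finset.card_univ, Fintype.card_fin, nsmul_eq_mul]
        push_cast
        field_simp
      rw [h1]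
      conv_rhs => rw [h2]
      apply Finset.sum_lt_sum
      · intro j _
        exact mul_le_mul_of_nonneg_left (hsub (hxF j) i) (by positivity)
      · exact ⟨i, Finset.mem_univ _, mul_lt_mul_of_pos_left (hx' i) (by positivity)⟩
    have hy3 : ∀ w : E, ∃ ε : ℝ, 0 < ε ∧ y + ε • w ∈ Pol N h := by
      intro w
      obtain ⟨ε, h1, h2⟩ := local_dir (A := (∅ : Set (Fin (n + 1)))) (c := y) (w := w) (h := h)
        (N := N) (by simp) (fun i _ => hy2 i) (by simp)
      exact ⟨ε, h1, h2.1⟩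
    have hlmax : ∀ z ∈ Pol N h, l z ≤ l y := by
      rw [hl] at hyF
      exact hyF.2
    have hl0 : ∀ w, l w ≤ 0 := by
      intro w
      obtain ⟨ε, h1, h2⟩ := hy3 w
      have h3 := hlmax _ h2
      rw [map_add, map_smul, smul_eq_mul] at h3
      by_contra hw
      push Not at hw
      have := mul_pos h1 hw
      linarith
    have hl1 : ∀ w, l w = 0 := by
      intro w
      have h1 := hl0 w
      have h2 := hl0 (-w)
      rw [map_neg] at h2
      linarith
    have hFP : ∀ z ∈ Pol N h, z ∈ F := by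
      intro z hz
      rw [hl]
      refine ⟨hz, fun y _ => ?_⟩
      rw [hl1, hl1]
    have hspan : vectorSpan ℝ F = ⊤ := by
      rw [eq_top_iff]
      intro w _
      obtain ⟨ε, h1, h2⟩ := hy3 w
      have h3 : (y + ε • w) -ᵥ y ∈ vectorSpan ℝ F := vsub_mem_vectorSpan ℝ (hFP _ h2) hyF
      have h4 : ε • w ∈ vectorSpan ℝ F := by simpa [vsub_eq_sub] using h3
      have h5 := Submodule.smul_mem _ ε⁻¹ h4
      rwa [smul_smul, inv_mul_cancel₀ h1.ne', one_smul] at h5
    rw [hspan, finrank_top, finrank_euclideanSpace_fin] at hdim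
    omega
  obtain ⟨i, hi⟩ := hex
  refine ⟨i, ?_⟩
  have hle : vectorSpan ℝ F ≤ (Submodule.span ℝ (N '' {i}))ᗮ := by
    rw [vectorSpan_def, Submodule.span_le]
    rintro _ ⟨x, hx, y, hy, rfl⟩
    rw [SetLike.mem_coe, mem_span_orth]
    rintro j rfl
    simp only [vsub_eq_sub]
    rw [inner_sub_right, hi x hx, hi y hy, sub_self]
  have heq : vectorSpan ℝ F = (Submodule.span ℝ (N '' {i}))ᗮ :=
    Submodule.eq_of_le_of_finrank_eq hle (by rw [hdim, finrank_orth_one hN i])
  obtain ⟨x0, hx0⟩ := hne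
  have hl0 : ∀ w ∈ vectorSpan ℝ F, l w = 0 := by
    intro w hw
    rw [vectorSpan_def] at hw
    induction hw using Submodule.span_induction with
    | mem x hx =>
      obtain ⟨a, ha, b, hb, rfl⟩ := hx
      have h1 := (hl ▸ ha : a ∈ {x ∈ Pol N h | ∀ y ∈ Pol N h, l y ≤ l x})
      have h2 := (hl ▸ hb : b ∈ {x ∈ Pol N h | ∀ y ∈ Pol N h, l y ≤ l x})
      have h3 := h1.2 b h2.1
      have h4 := h2.2 a h1.1
      simp only [vsub_eq_sub]
      rw [map_sub]
      linarith
    | zero => exact map_zero l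
    | add x y _ _ hx hy => rw [map_add, hx, hy, add_zero]
    | smul a x _ hx => rw [map_smul, hx, smul_zero]
  apply Subset.antisymm
  · intro x hx
    exact ⟨hsub hx, by rintro j rfl; exact hi x hx⟩
  · rintro y ⟨hy1, hy2⟩
    have h1 : y - x0 ∈ vectorSpan ℝ F := by
      rw [heq, mem_span_orth]
      rintro j rfl
      rw [inner_sub_right, hy2 j rfl, hi x0 hx0, sub_self]
    have h2 := hl0 _ h1
    rw [map_sub] at h2
    have h3 := (hl ▸ hx0 : x0 ∈ {x ∈ Pol N h | ∀ y ∈ Pol N h, l y ≤ l x})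
    rw [hl]
    refine ⟨hy1, fun z hz => ?_⟩
    have := h3.2 z hz
    linarith

end Pool.Agent.R177.Unf
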