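import Mathlib
import Pool.Agent.R177.Unf

set_option autoImplicit false

namespace Pool.Agent.R177.Unf

open Set RealInnerProductSpace Filter Topology

/-- The reflection `y ↦ y - (2⟪w, y⟫ / ⟪w, w⟫) w + t w` as an affine isometry. -/
noncomputable def fold (w : E) (t : ℝ) : E ≃ᵃⁱ[ℝ] E :=
  ((Submodule.span ℝ {w})ᗮ.reflection).toAffineIsometryEquiv.trans
    (AffineIsometryEquiv.constVAdd ℝ E (t • w))

theorem fold_apply (w : E) (t : ℝ) (y : E) :
    fold w t y = y - (2 * ⟪w, y⟫ / ⟪w, w⟫) • w + t • w := by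
  have h1 : fold w t y = t • w + (Submodule.span ℝ {w})ᗮ.reflection y := rfl
  rw [h1, Submodule.reflection_orthogonal_apply, Submodule.reflection_singleton_apply,
    real_inner_self_eq_norm_sq]
  simp only [RCLike.ofReal_real_eq_id, id_eq]
  rw [smul_smul_eq_two]
  module
where
  smul_smul_eq_two {a : ℝ} {w : E} : (2 : ℕ) • a • w = (2 * a) • w := by
    rw [two_smul, ← add_smul, two_mul]

/-- The graph joining every `i ≠ 0` to its parent. -/
def parentGraph {n : ℕ} (par : Fin (n + 1) → Fin (n + 1)) : SimpleGraph (Fin (n + 1)) :=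
  SimpleGraph.fromRel fun i j => i ≠ 0 ∧ par i = j

theorem parentGraph_isTree {n : ℕ} {par : Fin (n + 1) → Fin (n + 1)}
    (hpar : ∀ i, i ≠ 0 → par i < i) : (parentGraph par).IsTree := by
  have hconn : (parentGraph par).Connected := by
    rw [SimpleGraph.connected_iff_exists_forall_reachable]
    refine ⟨0, fun i => ?_⟩
    induction i using WellFoundedLT.induction with
    | ind i ih =>
      by_cases hi : i = 0
      · rw [hi]
      · have h1 := ih (par i) (hpar i hi)
        have h2 : (parentGraph par).Adj (par i) i := by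
          rw [parentGraph, SimpleGraph.fromRel_adj]
          exact ⟨(hpar i hi).ne, Or.inr ⟨hi, rfl⟩⟩
        exact h1.trans h2.reachable
  rw [SimpleGraph.isTree_iff_connected_and_card]
  refine ⟨hconn, le_antisymm ?_ hconn.card_vert_le_card_edgeSet_add_one⟩
  rw [Nat.card_fin]
  have h1 : (parentGraph par).edgeSet ⊆
      (fun j : Fin n => s(j.succ, par j.succ)) '' univ := by
    intro e he
    induction e using Sym2.ind with
    | _ a b =>
      rw [SimpleGraph.mem_edgeSet, parentGraph, SimpleGraph.fromRel_adj] at he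
      obtain ⟨-, ⟨ha, hb⟩ | ⟨ha, hb⟩⟩ := he
      · obtain ⟨j, rfl⟩ := Fin.exists_succ_eq.2 ha
        exact ⟨j, mem_univ _, by simp [hb]⟩
      · obtain ⟨j, rfl⟩ := Fin.exists_succ_eq.2 ha
        exact ⟨j, mem_univ _, by simp [hb, Sym2.eq_swap]⟩
  have h2 := Set.ncard_le_ncard h1 (toFinite _)
  have h3 := Set.ncard_image_le (f := fun j : Fin n => s(j.succ, par j.succ)) (s := univ)
    (toFinite _)
  rw [Set.ncard_univ, Nat.card_fin] at h3
  have h4 : Nat.card (parentGraph par).edgeSet = (parentGraph par).edgeSet.ncard := rfl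
  omega

theorem exists_dev {n : ℕ} {α : Type} {par : Fin (n + 1) → Fin (n + 1)}
    (hpar : ∀ i, i ≠ 0 → par i < i) (z : α) (f : Fin (n + 1) → α → α) :
    ∃ φ : Fin (n + 1) → α, φ 0 = z ∧ ∀ i, i ≠ 0 → φ i = f i (φ (par i)) := by
  classical
  let F : (i : Fin (n + 1)) → ((j : Fin (n + 1)) → j < i → α) → α :=
    fun i ih => if h : i ≠ 0 then f i (ih (par i) (hpar i h)) else z
  let φ : Fin (n + 1) → α := (wellFounded_lt (α := Fin (n + 1))).fix F
  have hφ : ∀ i, φ i = F i (fun j _ => φ j) := fun i => WellFounded.fix_eq _ F i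
  refine ⟨φ, ?_, fun i hi => ?_⟩
  · rw [hφ]; simp [F]
  · rw [hφ]; simp [F, hi]

variable {n : ℕ} {N : Fin (n + 1) → E} {h R m : ℝ}

/-- The unfolding map between adjacent facets with normals `a` and `b`. -/
noncomputable def unf (a b : E) (h s : ℝ) : E ≃ᵃⁱ[ℝ] E := fold (a + b) (2 * h / s)

theorem unf_apply {a b : E} (ha : ⟪a, a⟫ = R) (hb : ⟪b, b⟫ = R) (hab : ⟪a, b⟫ = m)
    (y : E) : unf a b h (R + m) y = y - ((⟪a + b, y⟫ - 2 * h) / (R + m)) • (a + b) := by
  have hba : ⟪b, a⟫ = m := by rw [real_inner_comm]; exact hab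
  have hw : ⟪a + b, a + b⟫ = 2 * (R + m) := by
    rw [inner_add_left, inner_add_right, inner_add_right, ha, hb, hab, hba]; ring
  rw [unf, fold_apply, hw, mul_div_mul_left _ _ (two_ne_zero), sub_div, sub_smul]
  abel

theorem not_allNet_Pol (hN : Reg N h R m) {par : Fin (n + 1) → Fin (n + 1)}
    (hpar : ∀ i, i ≠ 0 → par i < i) (hadj : ∀ i, i ≠ 0 → ⟪N i, N (par i)⟫ = m)
    (k : ℕ) (hk : k < n + 1) (hk0 : k ≠ 0)
    (hpath : ∀ t (ht : t + 1 < n + 1), t < k → par ⟨t + 1, ht⟩ = ⟨t, by omega⟩)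
    (x : ℕ → E)
    (hx : ∀ t (ht : t + 1 < n + 1), t < k → x t = x (t + 1) -
      ((⟪N ⟨t + 1, ht⟩ + N ⟨t, by omega⟩, x (t + 1)⟫ - 2 * h) / (R + m)) •
        (N ⟨t + 1, ht⟩ + N ⟨t, by omega⟩))
    (hx0 : ⟪N 0, x 0⟫ = h ∧ ∀ j, j ≠ 0 → ⟪N j, x 0⟫ < h)
    (hxk : ⟪N ⟨k, hk⟩, x k⟫ = h ∧ ∀ j, j ≠ ⟨k, hk⟩ → ⟪N j, x k⟫ < h) :
    ¬ AllNet (Pol N h) := by
  intro hall
  have hRm := hN.hRm
  have hRm0 : R + m ≠ 0 := hRm.ne'
  -- the bijection between indices and facets
  let e0 : Fin (n + 1) → Facet (Pol N h) := fun i => ⟨Fc N h {i}, isFacet_Fc hN i⟩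
  have he0 : Function.Bijective e0 := by
    constructor
    · intro i j hij
      exact Fc_injective hN (congrArg Subtype.val hij)
    · rintro ⟨F, hF⟩
      obtain ⟨i, rfl⟩ := facet_eq hN hF
      exact ⟨i, rfl⟩
  let e : Fin (n + 1) ≃ Facet (Pol N h) := Equiv.ofBijective e0 he0
  have he : ∀ i, (e i).1 = Fc N h {i} := fun i => rfl
  have hmemF : ∀ i y, y ∈ (e i).1 ↔ y ∈ Pol N h ∧ ⟪N i, y⟫ = h := by
    intro i y
    rw [he]
    constructor
    · rintro ⟨h1, h2⟩
      exact ⟨h1, h2 i rfl⟩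
    · rintro ⟨h1, h2⟩
      exact ⟨h1, by rintro j rfl; exact h2⟩
  -- the development
  let U : Fin (n + 1) → (E ≃ᵃⁱ[ℝ] E) := fun i => unf (N i) (N (par i)) h (R + m)
  have hU : ∀ i, i ≠ 0 → ∀ y, U i y = y - ((⟪N i + N (par i), y⟫ - 2 * h) / (R + m)) •
      (N i + N (par i)) := fun i hi y => unf_apply (hN.hR i) (hN.hR (par i)) (hadj i hi) y
  obtain ⟨φ, hφ0, hφ⟩ := exists_dev hpar (AffineIsometryEquiv.refl ℝ E)
    (fun i ψ => (U i).trans ψ)
  have hφ' : ∀ i, i ≠ 0 → ∀ y, φ i y = φ (par i) (U i y) := by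
    intro i hi y
    rw [hφ i hi]; rfl
  -- inner products with the unfolding map
  have hUp : ∀ i, i ≠ 0 → ∀ y, ⟪N i, y⟫ = h → ⟪N (par i), U i y⟫ = h := by
    intro i hi y hy
    rw [hU i hi, inner_sub_right, inner_smul_right, inner_add_right, inner_add_left, hy,
      hN.hR, real_inner_comm (N i) (N (par i)), hadj i hi]
    field_simp
    ring
  have hUi : ∀ i, i ≠ 0 → ∀ y, ⟪N i, y⟫ = h → ⟪N i, U i y⟫ = 2 * h - ⟪N (par i), y⟫ := by
    intro i hi y hy
    rw [hU i hi, inner_sub_right, inner_smul_right, inner_add_right, inner_add_left, hy,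
      hN.hR, hadj i hi]
    field_simp
    ring
  -- the hyperplane
  let H : AffineSubspace ℝ E := AffineSubspace.mk' ((h / R) • N 0) (Submodule.span ℝ (N '' {0}))ᗮ
  have hH : ∀ y, y ∈ H ↔ ⟪N 0, y⟫ = h := by
    intro y
    have h1 := (center_prop hN 0).1
    rw [AffineSubspace.mem_mk', mem_span_orth]
    simp only [vsub_eq_sub]
    constructor
    · intro h2
      have h3 := h2 0 rfl
      rw [inner_sub_right, h1] at h3
      linarith
    · rintro h2 j rfl
      rw [inner_sub_right, h1, h2, sub_self]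
  have hφH : ∀ i y, ⟪N i, y⟫ = h → φ i y ∈ H := by
    intro i
    induction i using WellFoundedLT.induction with
    | ind i ih =>
      intro y hy
      by_cases hi : i = 0
      · rw [hi, hφ0, hH, ← hi]; exact hy
      · rw [hφ' i hi]
        exact ih (par i) (hpar i hi) _ (hUp i hi y hy)
  -- the tree
  let T : SimpleGraph (Facet (Pol N h)) := (parentGraph par).map e.toEmbedding
  have hTadj : ∀ F G, T.Adj F G → ∃ i, i ≠ 0 ∧ ((F = e i ∧ G = e (par i)) ∨
      (F = e (par i) ∧ G = e i)) := by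
    intro F G hFG
    rw [SimpleGraph.map_adj] at hFG
    obtain ⟨a, b, hab, rfl, rfl⟩ := hFG
    rw [parentGraph, SimpleGraph.fromRel_adj] at hab
    obtain ⟨-, ⟨ha, hb⟩ | ⟨ha, hb⟩⟩ := hab
    · exact ⟨a, ha, Or.inl ⟨rfl, by rw [hb]; rfl⟩⟩
    · exact ⟨b, ha, Or.inr ⟨by rw [hb]; rfl, rfl⟩⟩
  have hdual : ∀ i, i ≠ 0 → (dualGraph (Pol N h)).Adj (e i) (e (par i)) := by
    intro i hi
    refine ⟨fun h' => (hpar i hi).ne' (e.injective h'), Fc N h {i, par i},
      isRidge_Fc hN (hpar i hi).ne' (hadj i hi), ?_, ?_⟩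
    · rw [he]
      rintro y ⟨h1, h2⟩
      exact ⟨h1, by rintro j rfl; exact h2 _ (by simp)⟩
    · rw [he]
      rintro y ⟨h1, h2⟩
      exact ⟨h1, by rintro j rfl; exact h2 _ (by simp)⟩
  have hagree : ∀ i, i ≠ 0 → ∀ y ∈ (e i).1 ∩ (e (par i)).1, φ i y = φ (par i) y := by
    rintro i hi y ⟨h1, h2⟩
    rw [hmemF] at h1 h2
    rw [hφ' i hi, hU i hi, inner_add_left, h1.2, h2.2]
    have : (h + h - 2 * h) / (R + m) = 0 := by rw [← two_mul, sub_self, zero_div]
    rw [this, zero_smul, sub_zero]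
  have hsides : ∀ i, i ≠ 0 → ∃ g : E →ᵃ[ℝ] ℝ, (∃ y ∈ H, g y ≠ 0) ∧
      (∀ y ∈ (e (par i)).1, g (φ (par i) y) ≤ 0) ∧ (∀ y ∈ (e i).1, 0 ≤ g (φ i y)) := by
    intro i hi
    let g0 : E →ᵃ[ℝ] ℝ := (innerSL ℝ (N i)).toLinearMap.toAffineMap - AffineMap.const ℝ E h
    have hg0 : ∀ y, g0 y = ⟪N i, y⟫ - h := fun y => rfl
    let g : E →ᵃ[ℝ] ℝ := g0.comp (φ (par i)).symm.toAffineEquiv.toAffineMap
    have hg : ∀ y, g (φ (par i) y) = ⟪N i, y⟫ - h := by
      intro y
      have h1 : g (φ (par i) y) = g0 ((φ (par i)).symm (φ (par i) y)) := rfl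
      rw [h1, AffineIsometryEquiv.symm_apply_apply, hg0]
    refine ⟨g, ⟨φ (par i) ((h / R) • N (par i)), hφH _ _ (center_prop hN _).1, ?_⟩, ?_, ?_⟩
    · rw [hg]
      have := (center_prop hN (par i)).2 i (hpar i hi).ne'
      exact (sub_neg.2 this).ne
    · intro y hy
      rw [hmemF] at hy
      rw [hg]
      have := hy.1 i
      linarith
    · intro y hy
      rw [hmemF] at hy
      rw [hφ' i hi, hg, hUi i hi y hy.2]
      have := hy.1 (par i)
      linarith
  have hunf : IsRidgeUnfolding (Pol N h) T H (fun F => φ (e.symm F)) := by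
    constructor
    · intro F G hFG
      obtain ⟨i, hi, ⟨rfl, rfl⟩ | ⟨rfl, rfl⟩⟩ := hTadj F G hFG
      · exact hdual i hi
      · exact (hdual i hi).symm
    · exact (SimpleGraph.Iso.map e (parentGraph par)).isTree_iff.1 (parentGraph_isTree hpar)
    · change Module.finrank ℝ (AffineSubspace.mk' ((h / R) • N 0)
        (Submodule.span ℝ (N '' {0}))ᗮ).direction = 3
      rw [AffineSubspace.direction_mk']
      exact finrank_orth_one hN 0
    · intro F y hy
      obtain ⟨i, rfl⟩ := e.surjective F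
      simp only [Equiv.symm_apply_apply]
      exact hφH i y ((hmemF i y).1 hy).2
    · intro F G hFG
      obtain ⟨i, hi, ⟨rfl, rfl⟩ | ⟨rfl, rfl⟩⟩ := hTadj F G hFG
      · simp only [Equiv.symm_apply_apply]
        exact hagree i hi
      · simp only [Equiv.symm_apply_apply]
        intro y hy
        exact (hagree i hi y hy.symm).symm
    · intro F G hFG
      obtain ⟨i, hi, ⟨rfl, rfl⟩ | ⟨rfl, rfl⟩⟩ := hTadj F G hFG
      · simp only [Equiv.symm_apply_apply]
        obtain ⟨g, ⟨y, hy1, hy2⟩, hg1, hg2⟩ := hsides i hi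
        refine ⟨-g, ⟨y, hy1, by simpa using hy2⟩, fun z hz => ?_, fun z hz => ?_⟩
        · have := hg2 z hz
          simpa using this
        · have := hg1 z hz
          simpa using this
      · simp only [Equiv.symm_apply_apply]
        exact hsides i hi
  -- points in the relative interiors
  have hint : ∀ i y, ⟪N i, y⟫ = h → (∀ j, j ≠ i → ⟪N j, y⟫ < h) →
      y ∈ intrinsicInterior ℝ (e i).1 := by
    intro i y hy1 hy2
    have hyF : y ∈ (e i).1 := by
      rw [hmemF]
      refine ⟨fun j => ?_, hy1⟩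
      by_cases hj : j = i
      · rw [hj, hy1]
      · exact (hy2 j hj).le
    rw [mem_intrinsicInterior]
    refine ⟨⟨y, subset_affineSpan ℝ _ hyF⟩, ?_, rfl⟩
    rw [mem_interior]
    refine ⟨{z | ∀ j, j ≠ i → ⟪N j, (z : E)⟫ < h}, ?_, ?_, hy2⟩
    · rintro ⟨z, hz⟩ hz2
      simp only [mem_preimage]
      rw [hmemF]
      have hzi : ⟪N i, z⟫ = h := by
        have hle : affineSpan ℝ (e i).1 ≤ AffineSubspace.mk' y (Submodule.span ℝ (N '' {i}))ᗮ := by
          rw [affineSpan_le]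
          intro u hu
          rw [SetLike.mem_coe, AffineSubspace.mem_mk', mem_span_orth]
          rintro j rfl
          rw [hmemF] at hu
          simp only [vsub_eq_sub]
          rw [inner_sub_right, hu.2, hy1, sub_self]
        have h1 := hle hz
        rw [AffineSubspace.mem_mk', mem_span_orth] at h1
        have h2 := h1 i rfl
        simp only [vsub_eq_sub] at h2
        rw [inner_sub_right, hy1] at h2
        linarith
      refine ⟨fun j => ?_, hzi⟩
      by_cases hj : j = i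
      · rw [hj, hzi]
      · exact (hz2 j hj).le
    · have : {z : affineSpan ℝ (e i).1 | ∀ j, j ≠ i → ⟪N j, (z : E)⟫ < h} =
          ⋂ j, {z : affineSpan ℝ (e i).1 | j ≠ i → ⟪N j, (z : E)⟫ < h} := by
        ext z; simp
      rw [this]
      apply isOpen_iInter_of_finite
      intro j
      by_cases hj : j = i
      · simp [hj]
      · simp only [ne_eq, hj, not_false_eq_true, forall_const]
        exact isOpen_lt (by fun_prop) continuous_const
  -- tracking the point
  have htrack : ∀ t (ht : t < n + 1), t ≤ k → φ ⟨t, ht⟩ (x t) = x 0 := by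
    intro t
    induction t with
    | zero =>
      intro ht _
      have : (⟨0, ht⟩ : Fin (n + 1)) = 0 := rfl
      rw [this, hφ0]; rfl
    | succ t ih =>
      intro ht htk
      have h0 : (⟨t + 1, ht⟩ : Fin (n + 1)) ≠ 0 := by
        intro h'
        have := congrArg Fin.val h'
        simp at this
      have h1 := hpath t ht (by omega)
      rw [hφ' _ h0, hU _ h0, h1]
      have h2 := hx t ht (by omega)
      rw [← h2]
      exact ih (by omega) (by omega)
  have h1 := hall T H (fun F => φ (e.symm F)) hunf (e 0) (e ⟨k, hk⟩) (by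
    intro h'
    have := congrArg Fin.val (e.injective h')
    simp at this
    exact hk0 this.symm)
  simp only [Equiv.symm_apply_apply] at h1
  apply h1
  refine ⟨x 0, ?_, ?_⟩
  · have h2 := AffineIsometry.intrinsicInterior_image (φ 0).toAffineIsometry (e 0).1
    have h3 : intrinsicInterior ℝ (φ 0 '' (e 0).1) = φ 0 '' intrinsicInterior ℝ (e 0).1 := h2
    rw [h3]
    exact ⟨x 0, hint 0 _ hx0.1 hx0.2, by rw [hφ0]; rfl⟩
  · have h2 := AffineIsometry.intrinsicInterior_image (φ ⟨k, hk⟩).toAffineIsometry (e ⟨k, hk⟩).1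
    have h3 : intrinsicInterior ℝ (φ ⟨k, hk⟩ '' (e ⟨k, hk⟩).1) =
      φ ⟨k, hk⟩ '' intrinsicInterior ℝ (e ⟨k, hk⟩).1 := h2
    rw [h3]
    exact ⟨x k, hint _ _ hxk.1 hxk.2, htrack k hk le_rfl⟩

end Pool.Agent.R177.Unf
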