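import Mathlib
import Pool.Agent.R177.Unf2

/-!
# Exact arithmetic in `ℤ[φ]` for vectors of `ℝ⁴`
-/

set_option autoImplicit false

namespace Pool.Agent.R177.Phi

open Pool.Agent.R177.Unf RealInnerProductSpace Real

/-- The real number `a + b φ`, where `φ` is the golden ratio. -/
noncomputable def val (z : ℤ × ℤ) : ℝ := z.1 + z.2 * goldenRatio

def zadd (x y : ℤ × ℤ) : ℤ × ℤ := (x.1 + y.1, x.2 + y.2)
def zsub (x y : ℤ × ℤ) : ℤ × ℤ := (x.1 - y.1, x.2 - y.2)
def zmul (x y : ℤ × ℤ) : ℤ × ℤ := (x.1 * y.1 + x.2 * y.2, x.1 * y.2 + x.2 * y.1 + x.2 * y.2)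

theorem val_add (x y : ℤ × ℤ) : val (zadd x y) = val x + val y := by
  simp only [val, zadd]; push_cast; ring

theorem val_sub (x y : ℤ × ℤ) : val (zsub x y) = val x - val y := by
  simp only [val, zsub]; push_cast; ring

theorem val_mul (x y : ℤ × ℤ) : val (zmul x y) = val x * val y := by
  simp only [val, zmul]; push_cast
  linear_combination (-(x.2 * y.2 : ℝ)) * goldenRatio_sq

/-- A sufficient test for `0 < a + b φ`. -/
def pos (z : ℤ × ℤ) : Bool :=
  let s := 2 * z.1 + z.2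
  let b := z.2
  (decide (0 ≤ s) && decide (0 ≤ b) && decide (0 < s + b)) ||
  (decide (0 < s) && decide (b ≤ 0) && decide (5 * (b * b) < s * s)) ||
  (decide (s ≤ 0) && decide (0 < b) && decide (s * s < 5 * (b * b)))

theorem val_eq (z : ℤ × ℤ) : 2 * val z = ((2 * z.1 + z.2 : ℤ) : ℝ) + (z.2 : ℝ) * √5 := by
  simp only [val, goldenRatio]; push_cast; ring

theorem val_pos {z : ℤ × ℤ} (h : pos z = true) : 0 < val z := by
  have h5 : √(5 : ℝ) * √5 = 5 := mul_self_sqrt (by norm_num)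
  have h50 : 0 < √(5 : ℝ) := sqrt_pos.2 (by norm_num)
  have h51 : 1 < √(5 : ℝ) := by
    rw [lt_sqrt (by norm_num)]; norm_num
  have h2 : 0 < ((2 * z.1 + z.2 : ℤ) : ℝ) + (z.2 : ℝ) * √5 := by
    simp only [pos, Bool.or_eq_true, Bool.and_eq_true, decide_eq_true_eq] at h
    generalize 2 * z.1 + z.2 = s at h ⊢
    generalize z.2 = b at h ⊢
    rcases h with (⟨⟨h1, h2⟩, h3⟩ | ⟨⟨h1, h2⟩, h3⟩) | ⟨⟨h1, h2⟩, h3⟩
    · have e1 : (0 : ℝ) ≤ s := by exact_mod_cast h1
      have e2 : (0 : ℝ) ≤ b := by exact_mod_cast h2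
      have e3 : (0 : ℝ) < s + b := by exact_mod_cast h3
      nlinarith
    · have e1 : (0 : ℝ) < s := by exact_mod_cast h1
      have e2 : (b : ℝ) ≤ 0 := by exact_mod_cast h2
      have e3 : (5 : ℝ) * (b * b) < s * s := by exact_mod_cast h3
      have e4 : (-(b : ℝ) * √5) < s := by
        apply lt_of_pow_lt_pow_left₀ 2 e1.le
        nlinarith
      linarith
    · have e1 : (s : ℝ) ≤ 0 := by exact_mod_cast h1
      have e2 : (0 : ℝ) < b := by exact_mod_cast h2
      have e3 : (s : ℝ) * s < 5 * (b * b) := by exact_mod_cast h3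
      have e4 : (-(s : ℝ)) < b * √5 := by
        apply lt_of_pow_lt_pow_left₀ 2 (by positivity)
        nlinarith
      linarith
  have := val_eq z
  linarith

theorem val_lt {x y : ℤ × ℤ} (h : pos (zsub y x) = true) : val x < val y := by
  have := val_pos h
  rw [val_sub] at this
  linarith

/-- Integral vectors. -/
abbrev Vz := Fin 4 → ℤ × ℤ

noncomputable def toE (u : Vz) : E := WithLp.toLp 2 fun t => val (u t)

theorem toE_apply (u : Vz) (t : Fin 4) : toE u t = val (u t) := rfl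

/-- The inner product of integral vectors. -/
def dotz (u v : Vz) : ℤ × ℤ :=
  let t := (u 0).2 * (v 0).2 + (u 1).2 * (v 1).2 + (u 2).2 * (v 2).2 + (u 3).2 * (v 3).2
  ((u 0).1 * (v 0).1 + (u 1).1 * (v 1).1 + (u 2).1 * (v 2).1 + (u 3).1 * (v 3).1 + t,
   (u 0).1 * (v 0).2 + (u 0).2 * (v 0).1 + (u 1).1 * (v 1).2 + (u 1).2 * (v 1).1 +
   (u 2).1 * (v 2).2 + (u 2).2 * (v 2).1 + (u 3).1 * (v 3).2 + (u 3).2 * (v 3).1 + t)

theorem inner_eq (x y : E) : ⟪x, y⟫ = x 0 * y 0 + x 1 * y 1 + x 2 * y 2 + x 3 * y 3 := by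
  rw [PiLp.inner_apply, Fin.sum_univ_four]
  simp only [RCLike.inner_apply, conj_trivial]
  ring

theorem inner_toE (u v : Vz) : ⟪toE u, toE v⟫ = val (dotz u v) := by
  rw [inner_eq]
  simp only [toE_apply, val, dotz]
  push_cast
  linear_combination (((u 0).2 * (v 0).2 + (u 1).2 * (v 1).2 + (u 2).2 * (v 2).2 +
    (u 3).2 * (v 3).2 : ℝ)) * goldenRatio_sq

def vadd (u v : Vz) : Vz := fun t => zadd (u t) (v t)

theorem toE_vadd (u v : Vz) : toE (vadd u v) = toE u + toE v := by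
  ext t
  simp [toE_apply, vadd, val_add]

/-- Bounded universal quantification, computed. -/
def allB : ℕ → (ℕ → Bool) → Bool
  | 0, _ => true
  | n + 1, f => f n && allB n f

theorem allB_spec {n : ℕ} {f : ℕ → Bool} (h : allB n f = true) : ∀ i, i < n → f i = true := by
  induction n with
  | zero => intro i hi; omega
  | succ n ih =>
    rw [allB, Bool.and_eq_true] at h
    intro i hi
    rcases Nat.lt_succ_iff_lt_or_eq.1 hi with h1 | h1
    · exact ih h.2 i h1
    · rw [h1]; exact h.1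

/-- The criterion of `not_allNet_Pol` for integral data. -/
theorem not_allNet_of_data {n : ℕ} (N : ℕ → Vz) (hz Rz mz : ℤ × ℤ)
    (hN : Reg (fun i : Fin (n + 1) => toE (N i)) (val hz) (val Rz) (val mz))
    (par : ℕ → ℕ) (hpar : ∀ i, i < n + 1 → i ≠ 0 → par i < i)
    (hadj : ∀ i, i < n + 1 → i ≠ 0 → dotz (N i) (N (par i)) = mz)
    (k : ℕ) (hk : k < n + 1) (hk0 : k ≠ 0) (hpath : ∀ t, t < k → par (t + 1) = t)
    (X : ℕ → Vz) (D : ℤ × ℤ) (hD : pos D = true)
    (hX : ∀ t, t < k → ∀ s : Fin 4,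
      zmul (zadd Rz mz) (zsub (X (t + 1) s) (X t s)) =
        zmul (zsub (dotz (vadd (N (t + 1)) (N t)) (X (t + 1))) (zmul (zadd hz hz) D))
          (vadd (N (t + 1)) (N t) s))
    (hX0 : dotz (N 0) (X 0) = zmul hz D)
    (hX0' : ∀ j, j < n + 1 → j ≠ 0 → pos (zsub (zmul hz D) (dotz (N j) (X 0))) = true)
    (hXk : dotz (N k) (X k) = zmul hz D)
    (hXk' : ∀ j, j < n + 1 → j ≠ k → pos (zsub (zmul hz D) (dotz (N j) (X k))) = true) :
    ¬ AllNet (Pol (fun i : Fin (n + 1) => toE (N i)) (val hz)) := by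
  have hD0 : 0 < val D := val_pos hD
  have hRm : val Rz + val mz ≠ 0 := hN.hRm.ne'
  have hval : ∀ (j t : ℕ), ⟪toE (N j), (val D)⁻¹ • toE (X t)⟫ =
      (val D)⁻¹ * val (dotz (N j) (X t)) := by
    intro j t
    rw [inner_smul_right, inner_toE]
  let par' : Fin (n + 1) → Fin (n + 1) := fun i =>
    if h : (i : ℕ) = 0 then 0 else ⟨par i, (hpar i i.2 h).trans i.2⟩
  have hpar'1 : ∀ i : Fin (n + 1), i ≠ 0 → ((par' i : Fin (n + 1)) : ℕ) = par i := by
    intro i hi
    have hi' : (i : ℕ) ≠ 0 := fun h' => hi (Fin.ext h')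
    simp only [par']
    rw [dif_neg hi']
  refine not_allNet_Pol hN (par := par') ?_ ?_ k hk hk0 ?_ (fun t => (val D)⁻¹ • toE (X t)) ?_ ?_ ?_
  · intro i hi
    have hi' : (i : ℕ) ≠ 0 := fun h' => hi (Fin.ext h')
    rw [Fin.lt_def, hpar'1 i hi]
    exact hpar i i.2 hi'
  · intro i hi
    have hi' : (i : ℕ) ≠ 0 := fun h' => hi (Fin.ext h')
    rw [inner_toE, hpar'1 i hi, hadj i i.2 hi']
  · intro t ht htk
    apply Fin.ext
    rw [hpar'1 _ (by intro h'; have := congrArg Fin.val h'; simp at this)]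
    exact hpath t htk
  · intro t ht htk
    simp only
    have h1 := hX t htk
    rw [← toE_vadd, inner_smul_right, inner_toE]
    ext s
    have h2 := congrArg val (h1 s)
    rw [val_mul, val_mul, val_sub, val_sub, val_mul, val_add, val_add] at h2
    simp only [PiLp.smul_apply, PiLp.sub_apply, toE_apply, smul_eq_mul]
    field_simp
    linear_combination (-1) * h2
  · refine ⟨?_, fun j hj => ?_⟩
    · have := hval 0 0
      simp only [Fin.val_zero] at this ⊢
      rw [this, hX0, val_mul]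
      field_simp
    · have hj' : (j : ℕ) ≠ 0 := fun h' => hj (Fin.ext h')
      rw [hval]
      have h1 := val_lt (hX0' j j.2 hj')
      rw [val_mul] at h1
      rw [inv_mul_lt_iff₀ hD0, mul_comm]
      exact h1
  · refine ⟨?_, fun j hj => ?_⟩
    · rw [hval]
      simp only
      rw [hXk, val_mul]
      field_simp
    · have hj' : (j : ℕ) ≠ k := fun h' => hj (Fin.ext h')
      rw [hval]
      have h1 := val_lt (hXk' j j.2 hj')
      rw [val_mul] at h1
      rw [inv_mul_lt_iff₀ hD0, mul_comm]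
      exact h1

end Pool.Agent.R177.Phi
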