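import Mathlib
import Pool.Agent.R177.Real

set_option autoImplicit false

namespace Pool.Agent.R177.Real

open Set

variable {U : Type} {E : Type} [NormedAddCommGroup E] [NormedSpace ℝ E]

/-- The join `G + K_n` on the vertex set `V ⊕ Fin n`: two distinct vertices are adjacent unless
both lie in `V` and are not adjacent in `G`. -/
def joinComplete {V : Type} (G : SimpleGraph V) (n : ℕ) : SimpleGraph (V ⊕ Fin n) where
  Adj x y := x ≠ y ∧ ∀ u v, x = Sum.inl u → y = Sum.inl v → G.Adj u v
  symm := ⟨fun _ _ h => ⟨h.1.symm, fun u v hx hy => (h.2 v u hy hx).symm⟩⟩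
  loopless := ⟨fun _ h => h.1 rfl⟩

theorem jc_inl {V : Type} (G : SimpleGraph V) (n : ℕ) (u v : V) :
    (joinComplete G n).Adj (Sum.inl u) (Sum.inl v) ↔ G.Adj u v := by
  constructor
  · rintro ⟨_, h⟩
    exact h u v rfl rfl
  · intro h
    refine ⟨fun h' => h.ne (Sum.inl.inj h'), ?_⟩
    rintro a b h1 h2
    cases h1; cases h2; exact h

theorem jc_inl_inr {V : Type} (G : SimpleGraph V) (n : ℕ) (u : V) (i : Fin n) :
    (joinComplete G n).Adj (Sum.inl u) (Sum.inr i) := by
  refine ⟨by simp, ?_⟩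
  rintro a b h1 h2
  cases h2

theorem jc_inr_inr {V : Type} (G : SimpleGraph V) (n : ℕ) (i j : Fin n) (h : i ≠ j) :
    (joinComplete G n).Adj (Sum.inr i) (Sum.inr j) := by
  refine ⟨fun h' => h (Sum.inr.inj h'), ?_⟩
  rintro a b h1 h2
  cases h2

/-- The affine span of a subset of `E × ℝ` that contains a spanning set at height `0` and a point
at a nonzero height. -/
theorem span_prod {S : Set (E × ℝ)} {p : U → E} (h : affineSpan ℝ (range p) = ⊤)
    (hS : ∀ u, (p u, (0 : ℝ)) ∈ S) {z : E} {a : ℝ} (ha : a ≠ 0) (hz : (z, a) ∈ S) :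
    affineSpan ℝ S = ⊤ := by
  have h1 : ∀ x : E, (x, (0 : ℝ)) ∈ affineSpan ℝ S := by
    intro x
    let f : E →ᵃ[ℝ] E × ℝ := (LinearMap.inl ℝ E ℝ).toAffineMap
    have h2 : (affineSpan ℝ (range p)).map f ≤ affineSpan ℝ S := by
      rw [AffineSubspace.map_span]
      apply affineSpan_mono
      rintro _ ⟨_, ⟨u, rfl⟩, rfl⟩
      exact hS u
    apply h2
    rw [h]
    exact ⟨x, trivial, rfl⟩
  have h3 : (z, a) ∈ affineSpan ℝ S := subset_affineSpan ℝ _ hz
  rw [eq_top_iff]
  rintro ⟨x, t⟩ _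
  have h4 := AffineSubspace.smul_vsub_vadd_mem (affineSpan ℝ S) (t / a) h3 (h1 z) (h1 x)
  convert h4 using 1
  ext
  · simp
  · simp [ha]

/-- Two additional vertices above and below a point outside the polytope that sees no vertex and no
edge from behind. -/
theorem Rz.two {p : U → E} {H : SimpleGraph U} (h : Rz p H) (z : E)
    (hz1 : ∀ u, ∃ (l : E →L[ℝ] ℝ) (b : ℝ), l (p u) + b = 0 ∧ (∀ w, w ≠ u → 0 < l (p w) + b) ∧
      0 < l z + b)
    (hz2 : ∀ u v, H.Adj u v → ∃ (l : E →L[ℝ] ℝ) (b : ℝ), l (p u) + b = 0 ∧ l (p v) + b = 0 ∧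
      (∀ w, w ≠ u → w ≠ v → 0 < l (p w) + b) ∧ 0 < l z + b)
    (hz3 : ∃ (l : E →L[ℝ] ℝ) (b : ℝ), l z + b = 0 ∧ ∀ w, 0 < l (p w) + b) :
    Rz (fun x : U ⊕ Fin 2 => Sum.elim (fun u => (p u, (0 : ℝ)))
      (fun i => (z, if i = 0 then (1 : ℝ) else -1)) x) (joinComplete H 2) := by
  have key : ∀ (l : E →L[ℝ] ℝ) (s : ℝ) (x : E) (t : ℝ),
      (l.comp (ContinuousLinearMap.fst ℝ E ℝ) + s • ContinuousLinearMap.snd ℝ E ℝ) (x, t) =
        l x + s * t := by
    intro l s x t
    simp [_root_.add_apply, _root_.smul_apply]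
  have hur : ∀ (u : U) (i : Fin 2), ∃ (l : E × ℝ →L[ℝ] ℝ) (b : ℝ),
      l (p u, 0) + b = 0 ∧ l (z, if i = 0 then (1 : ℝ) else -1) + b = 0 ∧
      (∀ w, w ≠ u → 0 < l (p w, 0) + b) ∧
      (∀ j : Fin 2, j ≠ i → 0 < l (z, if j = 0 then (1 : ℝ) else -1) + b) := by
    intro u i
    obtain ⟨l, b, h1, h2, h3⟩ := hz1 u
    refine ⟨l.comp (ContinuousLinearMap.fst ℝ E ℝ) +
      ((if i = 0 then (-1 : ℝ) else 1) * (l z + b)) • ContinuousLinearMap.snd ℝ E ℝ, b, ?_, ?_, ?_,
      ?_⟩
    · rw [key]; simp [h1]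
    · rw [key]
      split_ifs <;> ring
    · intro w hw
      rw [key]
      simpa using h2 w hw
    · intro j hj
      rw [key]
      have : (i = 0 ∧ j ≠ 0) ∨ (i ≠ 0 ∧ j = 0) := by
        revert i j; decide
      rcases this with ⟨h4, h5⟩ | ⟨h4, h5⟩
      · rw [if_pos h4, if_neg h5]; linarith
      · rw [if_neg h4, if_pos h5]; linarith
  refine ⟨?_, ?_, ?_⟩
  · rintro (u | i)
    · obtain ⟨l, b, h1, h2, h3⟩ := hz1 u
      refine ⟨l.comp (ContinuousLinearMap.fst ℝ E ℝ) + (0 : ℝ) • ContinuousLinearMap.snd ℝ E ℝ, b,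
        ?_, ?_⟩
      · simp only [Sum.elim_inl, key]; linarith
      · rintro (w | j) hw
        · have := h2 w (fun h' => hw (by rw [h']))
          simp only [Sum.elim_inl, key]; linarith
        · simp only [Sum.elim_inr, key]; linarith
    · refine ⟨(0 : E →L[ℝ] ℝ).comp (ContinuousLinearMap.fst ℝ E ℝ) +
        (if i = 0 then (-1 : ℝ) else 1) • ContinuousLinearMap.snd ℝ E ℝ, 1, ?_, ?_⟩
      · simp only [Sum.elim_inr, key]
        split_ifs <;> simp
      · rintro (w | j) hw
        · simp only [Sum.elim_inl, key]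
          simp
        · simp only [Sum.elim_inr, key]
          have hji : j ≠ i := fun h' => hw (by rw [h'])
          have h9 : ∀ i j : Fin 2, j ≠ i → (i = 0 ∧ j ≠ 0) ∨ (i ≠ 0 ∧ j = 0) := by decide
          rcases h9 i j hji with ⟨h4, h5⟩ | ⟨h4, h5⟩
          · rw [if_pos h4, if_neg h5]; simp
          · rw [if_neg h4, if_pos h5]; simp
  · rintro (u | i) (v | j) hne
    · have huv : u ≠ v := fun h' => hne (by rw [h'])
      rw [jc_inl]
      constructor
      · intro hadj
        obtain ⟨l, b, h1, h2, h3, h4⟩ := hz2 u v hadj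
        refine ⟨l.comp (ContinuousLinearMap.fst ℝ E ℝ) + (0 : ℝ) • ContinuousLinearMap.snd ℝ E ℝ, b,
          ?_, ?_, ?_⟩
        · simp only [Sum.elim_inl, key]; linarith
        · simp only [Sum.elim_inl, key]; linarith
        · rintro (w | j) hw hw'
          · have := h3 w (fun h' => hw (by rw [h'])) (fun h' => hw' (by rw [h']))
            simp only [Sum.elim_inl, key]; linarith
          · simp only [Sum.elim_inr, key]; linarith
      · rintro ⟨l, b, h1, h2, h3⟩
        rw [h.2.1 u v huv]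
        refine ⟨l.comp (ContinuousLinearMap.inl ℝ E ℝ), b, ?_, ?_, ?_⟩
        · simpa using h1
        · simpa using h2
        · intro w hw hw'
          have := h3 (Sum.inl w) (fun h' => hw (Sum.inl.inj h')) (fun h' => hw' (Sum.inl.inj h'))
          simpa using this
    · refine iff_of_true (jc_inl_inr H 2 u j) ?_
      obtain ⟨l, b, h1, h2, h3, h4⟩ := hur u j
      refine ⟨l, b, h1, h2, ?_⟩
      rintro (w | k) hw hw'
      · exact h3 w (fun h' => hw (by rw [h']))
      · exact h4 k (fun h' => hw' (by rw [h']))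
    · refine iff_of_true (jc_inl_inr H 2 v i).symm ?_
      obtain ⟨l, b, h1, h2, h3, h4⟩ := hur v i
      refine ⟨l, b, h2, h1, ?_⟩
      rintro (w | k) hw hw'
      · exact h3 w (fun h' => hw' (by rw [h']))
      · exact h4 k (fun h' => hw (by rw [h']))
    · have hij : i ≠ j := fun h' => hne (by rw [h'])
      refine iff_of_true (jc_inr_inr H 2 i j hij) ?_
      obtain ⟨l, b, h1, h2⟩ := hz3
      refine ⟨l.comp (ContinuousLinearMap.fst ℝ E ℝ) + (0 : ℝ) • ContinuousLinearMap.snd ℝ E ℝ, b,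
          ?_, ?_, ?_⟩
      · simp only [Sum.elim_inr, key]; linarith
      · simp only [Sum.elim_inr, key]; linarith
      · rintro (w | k) hw hw'
        · have := h2 w
          simp only [Sum.elim_inl, key]; linarith
        · exfalso
          have h5 : k ≠ i := fun h' => hw (by rw [h'])
          have h6 : k ≠ j := fun h' => hw' (by rw [h'])
          have h9 : ∀ i j k : Fin 2, i ≠ j → k ≠ i → k ≠ j → False := by decide
          exact h9 i j k hij h5 h6
  · refine span_prod h.2.2 (fun u => ⟨Sum.inl u, rfl⟩) (z := z) (a := 1) one_ne_zero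
      ⟨Sum.inr 0, by simp⟩

/-- The cone over a graph. -/
def cone {W : Type} (K : SimpleGraph W) : SimpleGraph (Option W) where
  Adj x y := x ≠ y ∧ ∀ u v, x = some u → y = some v → K.Adj u v
  symm := ⟨fun _ _ h => ⟨h.1.symm, fun u v hx hy => (h.2 v u hy hx).symm⟩⟩
  loopless := ⟨fun _ h => h.1 rfl⟩

/-- Pyramids. -/
theorem Rz.pyr {p : U → E} {H : SimpleGraph U} (h : Rz p H) :
    Rz (fun x : Option U => x.elim ((0 : E), (1 : ℝ)) (fun u => (p u, (0 : ℝ)))) (cone H) := by
  have key : ∀ (l : E →L[ℝ] ℝ) (s : ℝ) (x : E) (t : ℝ),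
      (l.comp (ContinuousLinearMap.fst ℝ E ℝ) + s • ContinuousLinearMap.snd ℝ E ℝ) (x, t) =
        l x + s * t := by
    intro l s x t
    simp [_root_.add_apply, _root_.smul_apply]
  have hu : ∀ u : U, ∃ (l : E × ℝ →L[ℝ] ℝ) (b : ℝ),
      l (p u, 0) + b = 0 ∧ l (0, 1) + b = 0 ∧ (∀ w, w ≠ u → 0 < l (p w, 0) + b) := by
    intro u
    obtain ⟨l, b, h1, h2⟩ := h.1 u
    refine ⟨l.comp (ContinuousLinearMap.fst ℝ E ℝ) + (-b) • ContinuousLinearMap.snd ℝ E ℝ, b, ?_,
      ?_, ?_⟩
    · rw [key]; linarith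
    · rw [key, map_zero]; linarith
    · intro w hw
      rw [key]
      have := h2 w hw
      linarith
  refine ⟨?_, ?_, ?_⟩
  · rintro (_ | u)
    · refine ⟨(0 : E →L[ℝ] ℝ).comp (ContinuousLinearMap.fst ℝ E ℝ) +
        (-1 : ℝ) • ContinuousLinearMap.snd ℝ E ℝ, 1, ?_, ?_⟩
      · simp only [Option.elim_none, key]; simp
      · rintro (_ | w) hw
        · exact absurd rfl hw
        · simp only [Option.elim_some, key]; simp
    · obtain ⟨l, b, h1, h2⟩ := h.1 u
      refine ⟨l.comp (ContinuousLinearMap.fst ℝ E ℝ) + (1 - b) • ContinuousLinearMap.snd ℝ E ℝ, b,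
        ?_, ?_⟩
      · simp only [Option.elim_some, key]; linarith
      · rintro (_ | w) hw
        · simp only [Option.elim_none, key, map_zero]; linarith
        · have := h2 w (fun h' => hw (by rw [h']))
          simp only [Option.elim_some, key]; linarith
  · rintro (_ | u) (_ | v) hne
    · exact absurd rfl hne
    · refine iff_of_true ⟨hne, by rintro a b h1 h2; cases h1⟩ ?_
      obtain ⟨l, b, h1, h2, h3⟩ := hu v
      refine ⟨l, b, h2, h1, ?_⟩
      rintro (_ | w) hw hw'
      · exact absurd rfl hw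
      · exact h3 w (fun h' => hw' (by rw [h']))
    · refine iff_of_true ⟨hne, by rintro a b h1 h2; cases h2⟩ ?_
      obtain ⟨l, b, h1, h2, h3⟩ := hu u
      refine ⟨l, b, h1, h2, ?_⟩
      rintro (_ | w) hw hw'
      · exact absurd rfl hw'
      · exact h3 w (fun h' => hw (by rw [h']))
    · have huv : u ≠ v := fun h' => hne (by rw [h'])
      constructor
      · rintro ⟨_, hadj⟩
        obtain ⟨l, b, h1, h2, h3⟩ := (h.2.1 u v huv).1 (hadj u v rfl rfl)
        refine ⟨l.comp (ContinuousLinearMap.fst ℝ E ℝ) +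
          (1 - b) • ContinuousLinearMap.snd ℝ E ℝ, b, ?_, ?_, ?_⟩
        · simp only [Option.elim_some, key]; linarith
        · simp only [Option.elim_some, key]; linarith
        · rintro (_ | w) hw hw'
          · simp only [Option.elim_none, key, map_zero]; linarith
          · have := h3 w (fun h' => hw (by rw [h'])) (fun h' => hw' (by rw [h']))
            simp only [Option.elim_some, key]; linarith
      · rintro ⟨l, b, h1, h2, h3⟩
        refine ⟨hne, ?_⟩
        rintro a a' ha ha'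
        cases ha; cases ha'
        rw [h.2.1 u v huv]
        refine ⟨l.comp (ContinuousLinearMap.inl ℝ E ℝ), b, ?_, ?_, ?_⟩
        · simpa using h1
        · simpa using h2
        · intro w hw hw'
          have := h3 (some w) (fun h' => hw (Option.some.inj h'))
            (fun h' => hw' (Option.some.inj h'))
          simpa using this
  · exact span_prod h.2.2 (fun u => ⟨some u, rfl⟩) (z := 0) (a := 1) one_ne_zero ⟨none, rfl⟩

end Pool.Agent.R177.Real
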