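import Mathlib
import Pool.Agent.R177.SpecData

set_option autoImplicit false

namespace Pool.Agent.R177.Spec

/-- Digit `k` of `n` in base `b`. -/
def dig (b n k : ℕ) : ℕ := n / b ^ k % b

/-- The coordinates of the vertices (integers). -/
def phi (i : Fin 27) (k : Fin 9) : ℤ := (dig 16 (phiC.getD i 0) k : ℤ) - 8

def ea (i : Fin 27) : ℕ := edC.getD i 0 / 32

def eb (i : Fin 27) : ℕ := edC.getD i 0 % 32

/-- The edges `i` and `j` of `K` are different and share a vertex. -/
def inter (i j : Fin 27) : Bool :=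
  (i != j) && (ea i == ea j || ea i == eb j || eb i == ea j || eb i == eb j)

/-- The edges `i` and `j` of `K` are disjoint. -/
def adjB (i j : Fin 27) : Bool := (i != j) && !(inter i j)

/-- Value at the vertex `k` of the certificate `c`. -/
def val (c : ℕ) (k : Fin 27) : ℤ :=
  (dig 1024 c 2 : ℤ) - ∑ r : Fin 9, phi k r * ((dig 1024 c (3 + r) : ℤ) - 512)

def checkCert (c : ℕ) : Bool :=
  (List.finRange 27).all fun k =>
    if (k : ℕ) = dig 1024 c 0 ∨ (k : ℕ) = dig 1024 c 1 then decide (val c k = 0)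
    else decide (0 < val c k)

theorem certs_ok : certC.all checkCert = true := by decide +kernel

theorem certs_cover : ∀ i j : Fin 27, adjB i j = true → (i : ℕ) < j →
    (certC.any fun c => (dig 1024 c 0 == i) && (dig 1024 c 1 == j)) = true := by decide +kernel

theorem rel_cover : ∀ i j : Fin 27, inter i j = true → (i : ℕ) < j →
    ∃ h k : Fin 27, h ≠ i ∧ h ≠ j ∧ ∀ r : Fin 9, phi i r + phi j r = phi h r + phi k r := by
  have key : ∀ i j : Fin 27, inter i j = true → (i : ℕ) < j →
    (relC.any fun c => (dig 32 c 0 == i) && (dig 32 c 1 == j)) = true := by decide +kernel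
  have key2 : ∀ c ∈ relC, ∀ i j : Fin 27, dig 32 c 0 = i → dig 32 c 1 = j →
      dig 32 c 2 < 27 ∧ dig 32 c 3 < 27 ∧ dig 32 c 2 ≠ i ∧ dig 32 c 2 ≠ j ∧
      ∀ r : Fin 9, phi i r + phi j r = phi (Fin.ofNat 27 (dig 32 c 2)) r +
        phi (Fin.ofNat 27 (dig 32 c 3)) r := by decide +kernel
  intro i j hij hlt
  obtain ⟨c, hc, hc2⟩ := List.any_eq_true.1 (key i j hij hlt)
  simp only [Bool.and_eq_true, beq_iff_eq] at hc2
  obtain ⟨h1, h2, h3, h4, h5⟩ := key2 c hc i j hc2.1 hc2.2
  refine ⟨Fin.ofNat 27 (dig 32 c 2), Fin.ofNat 27 (dig 32 c 3), ?_, ?_, h5⟩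
  · intro h
    apply h3
    rw [← h]
    simp [Fin.ofNat, Nat.mod_eq_of_lt h1]
  · intro h
    apply h4
    rw [← h]
    simp [Fin.ofNat, Nat.mod_eq_of_lt h1]

theorem eig_ok : ∀ (i : Fin 27) (k : Fin 9),
    ∑ j : Fin 27, (if adjB i j = true then phi j k else 0) = phi i k := by decide +kernel

/-- The rows used to read off the coordinates. -/
def fr (r : Fin 9) : Fin 27 := ![13, 15, 20, 21, 22, 23, 24, 25, 26] r

theorem fr_ok : ∀ r s : Fin 9, phi (fr r) s = if r = s then 2 else 0 := by decide +kernel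

/-- Certificate matrix. -/
def cm (i k : Fin 27) : ℤ := (dig 128 (cC.getD i 0) k : ℤ) - 64

theorem cm_ok : ∀ i j : Fin 27,
    ∑ k : Fin 27, cm i k * ((if adjB k j = true then 1 else 0) - (if k = j then 1 else 0)) =
      (if i = j then 14 else 0) - 7 * ∑ r : Fin 9, phi i r * (if j = fr r then 1 else 0) := by
  decide +kernel

theorem two_nbrs : ∀ i : Fin 27, ∃ j j' : Fin 27, j ≠ j' ∧ adjB i j = true ∧ adjB i j' = true := by
  decide +kernel

theorem sum_zero : ∀ k : Fin 9, ∑ i : Fin 27, phi i k = 0 := by decide +kernel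

theorem adjB_symm : ∀ i j : Fin 27, adjB i j = adjB j i := by decide +kernel

/-- The colours of the refinement. -/
def col (r : ℕ) (i : Fin 27) : ℕ := dig 131072 (colC.getD r 0) i

theorem col_zero : ∀ i : Fin 27, col 0 i =
    ∑ j : Fin 27, ∑ k : Fin 27, (if (inter i j && inter j k && inter k i) = true then 1 else 0) := by
  decide +kernel

theorem col_succ : ∀ (r : Fin 7) (i : Fin 27), col (r + 1) i =
    (col r i * 3 + ∑ j : Fin 27, (if inter i j = true then col r j ^ 2 % 1009 else 0)) % 100003 := by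
  decide +kernel

theorem col_inj : ∀ i j : Fin 27, col 7 i = col 7 j → i = j := by decide +kernel

end Pool.Agent.R177.Spec
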